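import Pool.Agent.Y149.PK.Defs

/-!
# Mertens laws for the pole of Tate's conjecture: definitions

`X` is a smooth projective variety over `ℚ` (`Pool.Agent.Y149.PK.Variety`).
-/

set_option autoImplicit false

namespace Pool.Agent.D0H93.TM

open Filter Topology Polynomial
open Pool.Agent.Y149.CM (LFun cone)
open Pool.Agent.Y149.PK (Variety IsEuler)

/-- The primes `p ≤ N`. -/
def primesLE (N : ℕ) : Finset Nat.Primes := (Finset.range (N + 1)).subtype Nat.Prime

/-- The truncated Euler product at the edge: `∏_{p ≤ N} B_p(p^{-(n/2+1)})⁻¹`. -/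
noncomputable def partialProduct (n : ℕ) (B : Nat.Primes → ℂ[X]) (N : ℕ) : ℂ :=
  ∏ p ∈ primesLE N, ((B p).eval (((p : ℕ) : ℂ) ^ (-((n : ℂ) / 2 + 1))))⁻¹

/-- The normalised trace `p^{-n/2} Tr(Frob_p | H^n(X))` of the geometric Frobenius. -/
noncomputable def trace (X : Variety) (n : ℕ) (p : Nat.Primes) : ℂ :=
  (X.frob p n).sum / ((p : ℕ) : ℂ) ^ ((n : ℂ) / 2)

/-- The number of the points of `X` over the field with `p` elements: `cone` is the number of the nonzero
solutions of the homogeneous equations. -/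
noncomputable def points (X : Variety) (p : Nat.Primes) : ℝ :=
  (@cone X.vars X.eqs (ZMod p) (@ZMod.instField p ⟨p.2⟩) : ℝ) / (((p : ℕ) : ℝ) - 1)

/-- `X` is geometrically connected of dimension at least `1`, and its cohomology satisfies Poincaré
duality: at almost all primes the Frobenius acts trivially on the one-dimensional space `H^0`, and
its eigenvalues on `H^{2d-a}` are the `p^d / z`, `z` the eigenvalues on `H^a`. -/
def IsConnected (X : Variety) : Prop :=
  1 ≤ X.dim ∧ ∀ᶠ p : Nat.Primes in cofinite, X.frob p 0 = {1} ∧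
    ∀ a ≤ 2 * X.dim, X.frob p (2 * X.dim - a) =
      (X.frob p a).map fun z => ((p : ℕ) : ℂ) ^ X.dim / z

/-- `X` has dimension `2m`, and outside of the middle degree `2m` its cohomology is that of the
projective space; this holds for all smooth complete intersections. -/
def IsMiddle (X : Variety) (m : ℕ) : Prop :=
  X.dim = 2 * m ∧ ∀ᶠ p : Nat.Primes in cofinite, ∀ a ≤ 4 * m, a ≠ 2 * m →
    X.frob p a = if Even a then {((p : ℕ) : ℂ) ^ (a / 2)} else 0

/-- `∏_{p ≤ N, p ∉ T} f(p) ~ c (log N)^k` with a constant `c > 0`, for all finite sets `T` of primes which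
contain a certain finite set. -/
def ProductLaw (f : Nat.Primes → ℝ) (k : ℤ) : Prop :=
  ∃ T₀ : Finset Nat.Primes, ∀ T, T₀ ⊆ T → ∃ c : ℝ, 0 < c ∧
    Tendsto (fun N : ℕ => (∏ p ∈ primesLE N \ T, f p) / Real.log N ^ k) atTop (𝓝 c)

/-- `r` is the order of `L(s) / L'(s)` (Euler factors `B p`, `B' p`) at `s = n/2 + 1`, as a limit along the
real axis. -/
def HasQuotientOrder (n : ℕ) (B B' : Nat.Primes → ℂ[X]) (r : ℤ) : Prop :=
  ∃ a : ℂ, a ≠ 0 ∧ Tendsto (fun ε : ℝ => (ε : ℂ) ^ (-r) *
    (LFun B ((n : ℂ) / 2 + 1 + ε) / LFun B' ((n : ℂ) / 2 + 1 + ε))) (𝓝[>] 0) (𝓝 a)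

end Pool.Agent.D0H93.TM
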