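import Pool.Agent.D0H93.TM.Model

/-! The local factors of the L-functions at the edge. -/

set_option autoImplicit false

namespace Pool.Agent.D0H93.TM

open Filter Topology Polynomial ComplexConjugate
open Pool.Agent.Y149.PK (Variety IsEuler)

theorem log_sub_bound {w : ℂ} {r : ℝ} (h : ‖w‖ ≤ r) (hr : r ≤ 1 / 2) :
    ‖-Complex.log (1 - w) - w‖ ≤ r ^ 2 := by
  have h1 := Complex.norm_log_one_add_sub_self_le (z := -w) (by rw [norm_neg]; linarith)
  rw [norm_neg, ← sub_eq_add_neg, sub_neg_eq_add] at h1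
  have h2 : ‖-Complex.log (1 - w) - w‖ = ‖Complex.log (1 - w) + w‖ := by
    rw [← norm_neg]
    congr 1
    ring
  rw [h2]
  refine h1.trans ?_
  have h3 : (1 - ‖w‖)⁻¹ ≤ 2 := by
    rw [inv_le_comm₀ (by linarith) (by norm_num)]
    linarith
  have h4 : ‖w‖ ^ 2 ≤ r ^ 2 := pow_le_pow_left₀ (norm_nonneg _) h 2
  have h5 : ‖w‖ ^ 2 * (1 - ‖w‖)⁻¹ ≤ ‖w‖ ^ 2 * 2 := mul_le_mul_of_nonneg_left h3 (by positivity)
  linarith

theorem one_sub_ne {w : ℂ} (h : ‖w‖ < 1) : 1 - w ≠ 0 := by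
  intro h0
  have : w = 1 := (sub_eq_zero.mp h0).symm
  rw [this, norm_one] at h
  exact lt_irrefl _ h

theorem ms_exp (s : Multiset ℂ) (t : ℂ) (h : ∀ z ∈ s, ‖z * t‖ < 1) :
    Complex.exp ((s.map fun z => -Complex.log (1 - z * t)).sum) =
      ((s.map fun z => 1 - z * t).prod)⁻¹ := by
  induction s using Multiset.induction_on with
  | empty => simp
  | cons a s ih =>
    rw [Multiset.map_cons, Multiset.sum_cons, Multiset.map_cons, Multiset.prod_cons, Complex.exp_add,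
      ih fun z hz => h z (Multiset.mem_cons_of_mem hz), mul_inv, Complex.exp_neg,
      Complex.exp_log (one_sub_ne (h a (Multiset.mem_cons_self a s)))]

theorem ms_bound (s : Multiset ℂ) (t : ℂ) {r : ℝ} (hr : r ≤ 1 / 2) (h : ∀ z ∈ s, ‖z * t‖ ≤ r) :
    ‖(s.map fun z => -Complex.log (1 - z * t)).sum - s.sum * t‖ ≤ Multiset.card s * r ^ 2 := by
  induction s using Multiset.induction_on with
  | empty => simp
  | cons a s ih =>
    rw [Multiset.map_cons, Multiset.sum_cons, Multiset.sum_cons, Multiset.card_cons]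
    have h1 := ih fun z hz => h z (Multiset.mem_cons_of_mem hz)
    have h2 := log_sub_bound (h a (Multiset.mem_cons_self a s)) hr
    have h3 : -Complex.log (1 - a * t) + (s.map fun z => -Complex.log (1 - z * t)).sum -
        (a + s.sum) * t = (-Complex.log (1 - a * t) - a * t) +
        ((s.map fun z => -Complex.log (1 - z * t)).sum - s.sum * t) := by ring
    rw [h3]
    refine (norm_add_le _ _).trans ?_
    push_cast
    linarith

theorem ms_conj {s : Multiset ℂ} (h : s.map conj = s) : (s.sum : ℂ) = (s.sum.re : ℝ) := by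
  have h1 : conj s.sum = s.sum := by
    conv_rhs => rw [← h]
    exact map_multiset_sum (starRingEnd ℂ) s
  exact (Complex.conj_eq_iff_real.mp h1).elim fun r hr => by rw [hr, Complex.ofReal_re]

theorem ms_norm {s : Multiset ℂ} {r : ℝ} (h : ∀ z ∈ s, ‖z‖ = r) : ‖s.sum‖ ≤ Multiset.card s * r := by
  induction s using Multiset.induction_on with
  | empty => simp
  | cons a s ih =>
    rw [Multiset.sum_cons, Multiset.card_cons]
    have h1 := ih fun z hz => h z (Multiset.mem_cons_of_mem hz)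
    have h2 := h a (Multiset.mem_cons_self a s)
    refine (norm_add_le _ _).trans ?_
    push_cast
    linarith

/-- `p^{-(n/2+1+ε)}` -/
noncomputable def rr (n : ℕ) (p : Nat.Primes) (ε : ℝ) : ℝ := ((p : ℕ) : ℝ) ^ (-((n : ℝ) / 2 + 1 + ε))

theorem rr_cast (n : ℕ) (p : Nat.Primes) (ε : ℝ) :
    ((p : ℕ) : ℂ) ^ (-((n : ℂ) / 2 + 1 + (ε : ℂ))) = (rr n p ε : ℂ) := by
  unfold rr
  rw [Complex.ofReal_cpow (by positivity)]
  push_cast
  rfl

theorem p_pos (p : Nat.Primes) : (0 : ℝ) < ((p : ℕ) : ℝ) := by exact_mod_cast p.2.pos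

theorem two_le (p : Nat.Primes) : (2 : ℝ) ≤ ((p : ℕ) : ℝ) := by exact_mod_cast p.2.two_le

theorem rr_pos (n : ℕ) (p : Nat.Primes) (ε : ℝ) : 0 < rr n p ε := Real.rpow_pos_of_pos (p_pos p) _

theorem rr_mul (n : ℕ) (p : Nat.Primes) (ε : ℝ) :
    ((p : ℕ) : ℝ) ^ ((n : ℝ) / 2) * rr n p ε = ((p : ℕ) : ℝ) ^ (-(1 + ε)) := by
  unfold rr
  rw [← Real.rpow_add (p_pos p)]
  congr 1
  ring

theorem rpow_le (p : Nat.Primes) {ε : ℝ} (hε : 0 ≤ ε) : ((p : ℕ) : ℝ) ^ (-(1 + ε)) ≤ 1 / ((p : ℕ) : ℝ) := by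
  rw [one_div, ← Real.rpow_neg_one]
  exact Real.rpow_le_rpow_of_exponent_le (by have := two_le p; linarith) (by linarith)

theorem inv_le_half (p : Nat.Primes) : 1 / ((p : ℕ) : ℝ) ≤ 1 / 2 :=
  one_div_le_one_div_of_le (by norm_num) (two_le p)

theorem zr_le {n : ℕ} {p : Nat.Primes} {ε : ℝ} (hε : 0 ≤ ε) {z : ℂ}
    (h : ‖z‖ = ((p : ℕ) : ℝ) ^ ((n : ℝ) / 2)) : ‖z * (rr n p ε : ℂ)‖ ≤ 1 / ((p : ℕ) : ℝ) := by
  rw [norm_mul, h, Complex.norm_real, Real.norm_of_nonneg (rr_pos n p ε).le, rr_mul]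
  exact rpow_le p hε

theorem rr_cont (n : ℕ) (p : Nat.Primes) : Continuous (rr n p) := by
  unfold rr
  exact Continuous.rpow continuous_const (by fun_prop) fun _ => Or.inl (p_pos p).ne'

/-- the local factors -/
noncomputable def FF (n : ℕ) (B : Nat.Primes → ℂ[X]) (p : Nat.Primes) (ε : ℝ) : ℂ :=
  ((B p).eval (((p : ℕ) : ℂ) ^ (-((n : ℂ) / 2 + 1 + (ε : ℂ)))))⁻¹

theorem summable_inv_sq : Summable fun p : Nat.Primes => (1 / ((p : ℕ) : ℝ)) ^ 2 := by
  have h := Nat.Primes.summable_rpow.mpr (show (-2 : ℝ) < -1 by norm_num)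
  refine h.congr fun p => ?_
  rw [Real.rpow_neg (p_pos p).le, one_div, inv_pow]
  norm_cast

theorem exists_model {n N0 : ℕ} {δ : Nat.Primes → Multiset ℂ} {B : Nat.Primes → ℂ[X]}
    (hB : IsEuler n δ B) (hδ : ∀ᶠ p : Nat.Primes in cofinite,
      (∀ z ∈ δ p, ‖z‖ = ((p : ℕ) : ℝ) ^ ((n : ℝ) / 2)) ∧ (δ p).map conj = δ p ∧
      Multiset.card (δ p) = N0) :
    ∃ (T : Finset Nat.Primes) (b : Nat.Primes → ℝ) (E : Nat.Primes → ℝ → ℂ) (u : Nat.Primes → ℝ)
      (M δ' : ℝ), Model (FF n B) b E u M δ' ∧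
      (∀ p, p ∉ T → (∀ z ∈ δ p, ‖z‖ = ((p : ℕ) : ℝ) ^ ((n : ℝ) / 2)) ∧ (δ p).map conj = δ p ∧
        Multiset.card (δ p) = N0) ∧
      ∀ p, p ∉ T → b p = (δ p).sum.re / ((p : ℕ) : ℝ) ^ ((n : ℝ) / 2) := by
  classical
  obtain ⟨hB1, hB2⟩ := hB
  have hfin := hB1.and hδ
  rw [eventually_cofinite] at hfin
  set T : Finset Nat.Primes := hfin.toFinset with hT
  have hgood : ∀ p, p ∉ T → (∀ z : ℂ, (B p).eval z = ((δ p).map fun α => 1 - α * z).prod) ∧
      (∀ z ∈ δ p, ‖z‖ = ((p : ℕ) : ℝ) ^ ((n : ℝ) / 2)) ∧ (δ p).map conj = δ p ∧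
      Multiset.card (δ p) = N0 := by
    intro p hp
    rw [hT, Set.Finite.mem_toFinset, Set.mem_ofPred_eq, not_not] at hp
    exact hp
  -- the polynomials at the bad primes
  set H : Nat.Primes → ℝ → ℂ := fun p ε => (B p).eval (rr n p ε : ℂ) with hH
  have hHc : ∀ p, Continuous (H p) := fun p =>
    (B p).continuous.comp (Complex.continuous_ofReal.comp (rr_cont n p))
  have hH0 : ∀ p, H p 0 ≠ 0 := by
    intro p
    have h := hB2 p
    have e := rr_cast n p 0
    rw [Complex.ofReal_zero, add_zero] at e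
    rw [e] at h
    exact h
  have hFH : ∀ p ε, FF n B p ε = (H p ε)⁻¹ := by
    intro p ε
    unfold FF
    rw [rr_cast]
  have hq : ∀ p, Tendsto (fun ε => (H p ε)⁻¹ / (H p 0)⁻¹) (𝓝 0) (𝓝 1) := by
    intro p
    have h1 := (((hHc p).tendsto 0).inv₀ (hH0 p)).div_const ((H p 0)⁻¹)
    rwa [div_self (inv_ne_zero (hH0 p))] at h1
  have hlq : ∀ p, Tendsto (fun ε => Complex.log ((H p ε)⁻¹ / (H p 0)⁻¹)) (𝓝 0) (𝓝 0) := by
    intro p
    have h1 := (continuousAt_clog (x := 1) (by simp)).tendsto.comp (hq p)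
    rwa [Complex.log_one] at h1
  have hsmall : ∀ᶠ ε : ℝ in 𝓝 0, ∀ p ∈ T, H p ε ≠ 0 ∧
      ‖Complex.log ((H p ε)⁻¹ / (H p 0)⁻¹)‖ < 1 := by
    rw [eventually_all_finset]
    intro p _
    have h1 := (hlq p).norm
    rw [norm_zero] at h1
    exact (((hHc p).tendsto 0).eventually_ne (hH0 p)).and (h1.eventually_lt_const one_pos)
  obtain ⟨η, hη, hη'⟩ := Metric.eventually_nhds_iff.mp hsmall
  have hη'' : ∀ ε : ℝ, 0 ≤ ε → ε < η → ∀ p ∈ T, H p ε ≠ 0 ∧
      ‖Complex.log ((H p ε)⁻¹ / (H p 0)⁻¹)‖ < 1 := by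
    intro ε h1 h2
    refine hη' ?_
    rw [Real.dist_eq, sub_zero, abs_of_nonneg h1]
    exact h2
  set b : Nat.Primes → ℝ := fun p => if p ∈ T then 0 else (δ p).sum.re / ((p : ℕ) : ℝ) ^ ((n : ℝ) / 2)
    with hb
  set E : Nat.Primes → ℝ → ℂ := fun p ε => if p ∈ T then Complex.log ((H p 0)⁻¹) +
      Complex.log ((H p ε)⁻¹ / (H p 0)⁻¹) else
      ((δ p).map fun z => -Complex.log (1 - z * (rr n p ε : ℂ))).sum - (δ p).sum * (rr n p ε : ℂ)
    with hE
  set u : Nat.Primes → ℝ := fun p => (if p ∈ T then ‖Complex.log ((H p 0)⁻¹)‖ + 1 else 0) +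
    N0 * (1 / ((p : ℕ) : ℝ)) ^ 2 with hu
  refine ⟨T, b, E, u, N0, η, ?_, fun p hp => (hgood p hp).2, fun p hp => ?_⟩
  · constructor
    · exact hη
    · intro p
      rw [hb]
      simp only
      split_ifs with hp
      · rw [abs_zero]; positivity
      · obtain ⟨_, h1, _, h3⟩ := hgood p hp
        have h4 := ms_norm h1
        have h5 : 0 < ((p : ℕ) : ℝ) ^ ((n : ℝ) / 2) := Real.rpow_pos_of_pos (p_pos p) _
        rw [abs_div, abs_of_pos h5, div_le_iff₀ h5, ← h3]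
        exact (Complex.abs_re_le_norm _).trans h4
    · intro p ε hε hεη
      rw [hFH, hb, hE]
      simp only
      split_ifs with hp
      · obtain ⟨h1, _⟩ := hη'' ε hε hεη p hp
        rw [zero_mul, Complex.ofReal_zero, zero_add, Complex.exp_add,
          Complex.exp_log (inv_ne_zero (hH0 p)),
          Complex.exp_log (div_ne_zero (inv_ne_zero h1) (inv_ne_zero (hH0 p)))]
        rw [mul_div_cancel₀ _ (inv_ne_zero (hH0 p))]
      · obtain ⟨h0, h1, h2, h3⟩ := hgood p hp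
        have h4 : (((δ p).sum.re / ((p : ℕ) : ℝ) ^ ((n : ℝ) / 2) * ((p : ℕ) : ℝ) ^ (-(1 + ε)) : ℝ) : ℂ) =
            (δ p).sum * (rr n p ε : ℂ) := by
          have h5 : ((p : ℕ) : ℝ) ^ ((n : ℝ) / 2) ≠ 0 := (Real.rpow_pos_of_pos (p_pos p) _).ne'
          rw [← rr_mul n p ε]
          have h6 : (δ p).sum.re / ((p : ℕ) : ℝ) ^ ((n : ℝ) / 2) *
              (((p : ℕ) : ℝ) ^ ((n : ℝ) / 2) * rr n p ε) = (δ p).sum.re * rr n p ε := by
            field_simp
          rw [h6, Complex.ofReal_mul, ← ms_conj h2]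
        rw [h4, add_sub_cancel, ms_exp _ _ fun z hz => ?_, hH]
        · simp only
          rw [h0]
        · refine (zr_le hε (h1 z hz)).trans_lt ?_
          have := inv_le_half p
          linarith
    · intro p ε hε hεη
      rw [hE, hu]
      simp only
      split_ifs with hp
      · obtain ⟨_, h1⟩ := hη'' ε hε hεη p hp
        refine (norm_add_le _ _).trans ?_
        have : 0 ≤ (N0 : ℝ) * (1 / ((p : ℕ) : ℝ)) ^ 2 := by positivity
        linarith
      · obtain ⟨h0, h1, h2, h3⟩ := hgood p hp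
        rw [zero_add, ← h3]
        exact ms_bound _ _ (inv_le_half p) fun z hz => zr_le hε (h1 z hz)
    · refine Summable.add ?_ (summable_inv_sq.mul_left _)
      refine summable_of_ne_finset_zero (s := T) fun p hp => ?_
      rw [if_neg hp]
    · intro p
      rw [hE]
      simp only
      split_ifs with hp
      · have h1 := ((hlq p).const_add (Complex.log ((H p 0)⁻¹))).mono_left
          (nhdsWithin_le_nhds (s := Set.Ioi (0 : ℝ)))
        rwa [div_self (inv_ne_zero (hH0 p)), Complex.log_one]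
      · obtain ⟨h0, h1, h2, h3⟩ := hgood p hp
        have hr : Tendsto (fun ε => (rr n p ε : ℂ)) (𝓝[>] 0) (𝓝 (rr n p 0 : ℂ)) :=
          ((Complex.continuous_ofReal.comp (rr_cont n p)).tendsto 0).mono_left nhdsWithin_le_nhds
        refine Tendsto.sub (tendsto_multiset_sum _ fun z hz => ?_) (hr.const_mul _)
        have h5 : ‖-(z * (rr n p 0 : ℂ))‖ < 1 := by
          rw [norm_neg]
          refine (zr_le le_rfl (h1 z hz)).trans_lt ?_
          have := inv_le_half p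
          linarith
        have h4 := Complex.mem_slitPlane_of_norm_lt_one h5
        rw [← sub_eq_add_neg] at h4
        exact ((continuousAt_clog h4).tendsto.comp ((hr.const_mul z).const_sub 1)).neg
  · rw [hb]
    simp only
    rw [if_neg hp]

end Pool.Agent.D0H93.TM
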