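import Pool.Agent.D0H93.TM.Var

/-! Main theorems. -/

set_option autoImplicit false

namespace Pool.Agent.D0H93.TM

open Filter Topology Polynomial ComplexConjugate
open Pool.Agent.Y149.PK (Variety IsEuler HasOrder size)
open Pool.Agent.Y149.CM (cone IsFrobenius LFun)
open Pool.Agent.H305R2 (fp fp_nonneg)

/-- convergence of the prime sum -/
def Conv (b : Nat.Primes → ℝ) (k : ℤ) : Prop :=
  ∃ c : ℝ, Tendsto (fun N : ℕ => hN b N - k * Real.log (Real.log N)) atTop (𝓝 c)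

theorem Conv.congr {b b' : Nat.Primes → ℝ} {k : ℤ}
    (h : ∀ᶠ p : Nat.Primes in cofinite, b p = b' p) : Conv b k ↔ Conv b' k := by
  rw [eventually_cofinite] at h
  refine hN_conv h.toFinset (fun p hp => ?_) k
  rw [Set.Finite.mem_toFinset, Set.mem_ofPred_eq, not_not] at hp
  exact hp

theorem hN_sub (b b' : Nat.Primes → ℝ) (N : ℕ) : hN (fun p => b p - b' p) N = hN b N - hN b' N := by
  rw [hN_eq, hN_eq, hN_eq, ← Finset.sum_sub_distrib]
  exact Finset.sum_congr rfl fun p _ => sub_div _ _ _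

theorem Conv.sub_iff {b b' : Nat.Primes → ℝ} {r : ℤ} (h : Conv b' r) (k : ℤ) :
    Conv b k ↔ Conv (fun p => b p - b' p) (k - r) := by
  obtain ⟨c', hc'⟩ := h
  constructor
  · rintro ⟨c, hc⟩
    refine ⟨_, (hc.sub hc').congr fun N => ?_⟩
    rw [hN_sub]
    push_cast
    ring
  · rintro ⟨c, hc⟩
    refine ⟨_, (hc.add hc').congr fun N => ?_⟩
    rw [hN_sub]
    push_cast
    ring

theorem conv_one : Conv (fun _ => 1) 1 := by
  refine ⟨_, mertens_two.congr fun N => ?_⟩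
  rw [Int.cast_one, one_mul]
  congr 1
  unfold hN
  refine Finset.sum_congr rfl fun n _ => ?_
  by_cases hn : n.Prime
  · unfold ext
    rw [dif_pos hn, one_mul]
  · unfold Pool.Agent.H305R2.fp
    rw [if_neg hn, mul_zero]

theorem FF_zero (n : ℕ) (B : Nat.Primes → ℂ[X]) (N : ℕ) :
    ∏ p ∈ primesLE N, FF n B p 0 = partialProduct n B N := by
  unfold partialProduct
  refine Finset.prod_congr rfl fun p _ => ?_
  unfold FF
  rw [Complex.ofReal_zero, add_zero]

theorem FF_tprod (n : ℕ) (B : Nat.Primes → ℂ[X]) (ε : ℝ) :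
    ∏' p, FF n B p ε = LFun B ((n : ℂ) / 2 + 1 + ε) := rfl

/-- the data of a variety in degree `n` -/
theorem variety_model (X : Variety) {n : ℕ} {B : Nat.Primes → ℂ[X]}
    (hB : IsEuler n (fun p => X.frob p n) B) :
    ∃ (b : Nat.Primes → ℝ) (E : Nat.Primes → ℝ → ℂ) (u : Nat.Primes → ℝ)
      (M δ : ℝ), Model (FF n B) b E u M δ ∧ ∀ᶠ p : Nat.Primes in cofinite,
        b p = (X.frob p n).sum.re / ((p : ℕ) : ℝ) ^ ((n : ℝ) / 2) ∧ trace X n p = b p := by
  obtain ⟨T, b, E, u, M, δ, h1, h2, h3⟩ := exists_model (n := n) (N0 := X.betti n)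
    (δ := fun p => X.frob p n) hB (by
      filter_upwards [X.good] with p ⟨h1, h2, h3⟩
      exact ⟨h1.weight n, h2 n, h3 n⟩)
  refine ⟨b, E, u, M, δ, h1, ?_⟩
  have hT : ∀ᶠ p : Nat.Primes in cofinite, p ∉ T := by
    rw [eventually_cofinite]
    refine T.finite_toSet.subset fun p hp => ?_
    rw [Set.mem_ofPred_eq, not_not] at hp
    exact hp
  filter_upwards [hT] with p hp
  refine ⟨h3 p hp, ?_⟩
  obtain ⟨_, h4, _⟩ := h2 p hp
  rw [h3 p hp]
  unfold trace
  rw [ms_conj h4, Complex.ofReal_re, Complex.ofReal_div, Complex.ofReal_cpow (p_pos p).le]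
  push_cast
  rfl

theorem eventually_finset {P : Nat.Primes → Prop} (h : ∀ᶠ p : Nat.Primes in cofinite, P p) :
    ∃ T : Finset Nat.Primes, ∀ p, p ∉ T → P p := by
  rw [eventually_cofinite] at h
  refine ⟨h.toFinset, fun p hp => ?_⟩
  rw [Set.Finite.mem_toFinset, Set.mem_ofPred_eq, not_not] at hp
  exact hp

/-- **The pole as a Mertens law.** -/
theorem edge (X : Variety) (n : ℕ) (B : Nat.Primes → ℂ[X]) (hB : IsEuler n (fun p => X.frob p n) B) :
    (∃ C : ℝ, ∀ᶠ ε : ℝ in 𝓝[>] 0, |Real.log ‖LFun B ((n : ℂ) / 2 + 1 + ε)‖ -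
      Real.log ‖partialProduct n B ⌊Real.exp (1 / ε)⌋₊‖| ≤ C) ∧
    (∀ κ : ℝ, Tendsto (size n B) (𝓝[>] 0) (𝓝 κ) ↔
      Tendsto (fun N : ℕ => Real.log ‖partialProduct n B N‖ / Real.log (Real.log N)) atTop (𝓝 κ)) ∧
    ∀ k : ℤ,
      (HasOrder n B (-k) ↔ ∃ a : ℂ, a ≠ 0 ∧ Tendsto (fun N : ℕ => partialProduct n B N /
        ((Real.log N : ℝ) : ℂ) ^ k) atTop (𝓝 a)) ∧
      (HasOrder n B (-k) ↔ ∃ c : ℂ, Tendsto (fun N : ℕ => ∑ p ∈ primesLE N,
        (trace X n p - k) / ((p : ℕ) : ℂ)) atTop (𝓝 c)) ∧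
      ∀ a : ℂ, a ≠ 0 →
        (Tendsto (fun ε : ℝ => (ε : ℂ) ^ k * LFun B ((n : ℂ) / 2 + 1 + ε)) (𝓝[>] 0) (𝓝 a) ↔
          Tendsto (fun N : ℕ => partialProduct n B N / ((Real.log N : ℝ) : ℂ) ^ k) atTop
            (𝓝 (Complex.exp (k * Real.eulerMascheroniConstant) * a))) := by
  obtain ⟨b, E, u, M, δ, h, hb⟩ := variety_model X hB
  have hO : ∀ k : ℤ, HasOrder n B (-k) ↔ Conv b k := by
    intro k
    have h1 := h.order_iff k
    unfold Pool.Agent.Y149.PK.HasOrder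
    rw [neg_neg]
    exact h1
  refine ⟨?_, ?_, fun k => ⟨?_, ?_, ?_⟩⟩
  · have h1 := h.uncond
    simp only [FF_zero, FF_tprod] at h1
    exact h1
  · intro κ
    have h1 := h.weak_iff κ
    simp only [FF_zero, FF_tprod] at h1
    exact h1
  · rw [hO k]
    have h1 := h.partial_iff k
    simp only [FF_zero] at h1
    exact h1.symm
  · rw [hO k]
    obtain ⟨T, hT⟩ := eventually_finset hb
    exact (trace_iff T (fun p hp => (hT p hp).2) k).symm
  · intro a ha
    have h1 := h.product_iff k ha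
    simp only [FF_zero, FF_tprod] at h1
    exact h1

theorem order_iff_conv (X : Variety) {B : Nat.Primes → ℂ[X]}
    (hB : IsEuler 2 (fun p => X.frob p 2) B) (k : ℤ) : HasOrder 2 B (-k) ↔ Conv (b2 X) k := by
  obtain ⟨b, E, u, M, δ, h, hb⟩ := variety_model X hB
  have h1 := h.order_iff k
  unfold Pool.Agent.Y149.PK.HasOrder
  rw [neg_neg]
  refine h1.trans (Conv.congr ?_)
  filter_upwards [hb] with p hp
  exact hp.1

theorem quotient_iff_conv (X Y : Variety) {B B' : Nat.Primes → ℂ[X]}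
    (hB : IsEuler 2 (fun p => X.frob p 2) B) (hB' : IsEuler 2 (fun p => Y.frob p 2) B') (k : ℤ) :
    HasQuotientOrder 2 B B' (-k) ↔ Conv (fun p => b2 X p - b2 Y p) k := by
  obtain ⟨b, E, u, M, δ, h, hb⟩ := variety_model X hB
  obtain ⟨b', E', u', M', δ', h', hb'⟩ := variety_model Y hB'
  have h1 := (h.div h').order_iff k
  unfold HasQuotientOrder
  rw [neg_neg]
  have h2 : Conv (fun p => b p - b' p) k ↔ Conv (fun p => b2 X p - b2 Y p) k := by
    refine Conv.congr ?_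
    filter_upwards [hb, hb'] with p hp hp'
    rw [hp.1, hp'.1]
    rfl
  rw [← h2]
  refine Iff.trans ?_ h1
  refine exists_congr fun a => and_congr_right fun _ => ?_
  refine tendsto_congr' ?_
  have h3 : ∀ᶠ ε : ℝ in 𝓝[>] 0, ε < δ := (eventually_lt_nhds h.pos).filter_mono nhdsWithin_le_nhds
  have h4 : ∀ᶠ ε : ℝ in 𝓝[>] 0, ε < δ' := (eventually_lt_nhds h'.pos).filter_mono nhdsWithin_le_nhds
  filter_upwards [self_mem_nhdsWithin, h3, h4] with ε hε e1 e2
  have hε0 : (0 : ℝ) < ε := hε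
  have p1 := (h.hasProd hε0 e1)
  have p2 := (h'.hasProd hε0 e2)
  have p3 := p1.div₀ p2 (Complex.exp_ne_zero _)
  rw [← FF_tprod, ← FF_tprod, p1.tprod_eq, p2.tprod_eq, p3.tprod_eq]

theorem law_of_forall {f b : Nat.Primes → ℝ} {T0 : Finset Nat.Primes}
    (h : ∀ T, T0 ⊆ T → ∃ e : Nat.Primes → ℝ, Summable e ∧
      ∀ p, p ∉ T → f p = Real.exp (b p / ((p : ℕ) : ℝ) + e p)) (k : ℤ) :
    Conv b k ↔ ProductLaw f k := by
  classical
  constructor
  · intro h1
    refine ⟨T0, fun T hT => ?_⟩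
    obtain ⟨e, he, h2⟩ := h T hT
    exact (real_iff T h2 he k).mpr h1
  · rintro ⟨T1, h1⟩
    obtain ⟨e, he, h2⟩ := h (T0 ∪ T1) Finset.subset_union_left
    exact (real_iff _ h2 he k).mp (h1 _ Finset.subset_union_right)

theorem trace_real {b tr : Nat.Primes → ℝ} (h : ∀ᶠ p : Nat.Primes in cofinite, tr p = b p) (k : ℤ) :
    (∃ c : ℝ, Tendsto (fun N : ℕ => ∑ p ∈ primesLE N, (tr p - k) / ((p : ℕ) : ℝ)) atTop (𝓝 c)) ↔
    Conv b k := by
  obtain ⟨T, hT⟩ := eventually_finset h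
  have h1 := trace_iff (b := b) (tr := fun p => (tr p : ℂ)) T (fun p hp => by rw [hT p hp]) k
  have e2 : ∀ N : ℕ, ∑ p ∈ primesLE N, ((tr p : ℂ) - k) / ((p : ℕ) : ℂ) =
      ((∑ p ∈ primesLE N, (tr p - k) / ((p : ℕ) : ℝ) : ℝ) : ℂ) := by
    intro N
    push_cast
    rfl
  refine Iff.trans ?_ h1
  constructor
  · rintro ⟨c, hc⟩
    exact ⟨c, ((Complex.continuous_ofReal.tendsto _).comp hc).congr fun N => (e2 N).symm⟩
  · rintro ⟨c, hc⟩
    refine ⟨c.re, ((Complex.continuous_re.tendsto _).comp hc).congr fun N => ?_⟩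
    simp only [Function.comp_apply]
    rw [e2, Complex.ofReal_re]

theorem alt_sum (f : ℕ → ℝ) (P : ℝ) (m : ℕ) (h : ∀ a ≤ 4 * m, a ≠ 2 * m → f a =
    if Even a then P ^ (a / 2) else 0) :
    ∑ a ∈ Finset.range (4 * m + 1), (-1 : ℝ) ^ a * f a =
      ∑ j ∈ Finset.range (2 * m + 1), P ^ j + f (2 * m) - P ^ m := by
  have h1 : ∀ n ≤ 2 * m, ∑ a ∈ Finset.range (2 * n + 1), (-1 : ℝ) ^ a * f a =
      ∑ j ∈ Finset.range (n + 1), P ^ j + (if m ≤ n then f (2 * m) - P ^ m else 0) := by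
    intro n hn
    induction n with
    | zero =>
      simp only [mul_zero, zero_add, Finset.range_one, Finset.sum_singleton, pow_zero, one_mul]
      split_ifs with hm
      · have : m = 0 := by omega
        subst this
        simp
      · rw [h 0 (by omega) (by omega)]
        simp
    | succ n ih =>
      have e : 2 * (n + 1) + 1 = 2 * n + 1 + 1 + 1 := by ring
      rw [e, Finset.sum_range_succ, Finset.sum_range_succ, ih (by omega),
        Finset.sum_range_succ _ (n + 1)]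
      have o1 : f (2 * n + 1) = 0 := by
        rw [h (2 * n + 1) (by omega) (by omega), if_neg (by
          rw [Nat.not_even_iff_odd]; exact ⟨n, rfl⟩)]
      have o2 : (-1 : ℝ) ^ (2 * n + 1 + 1) = 1 := by
        rw [show 2 * n + 1 + 1 = 2 * (n + 1) by ring, pow_mul]; norm_num
      rw [o1, o2, mul_zero, one_mul, add_zero]
      by_cases hm : n + 1 = m
      · have e3 : 2 * n + 1 + 1 = 2 * m := by omega
        rw [e3, if_neg (by omega), if_pos (by omega), hm]
        ring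
      · have e3 : f (2 * n + 1 + 1) = P ^ (n + 1) := by
          rw [h (2 * n + 1 + 1) (by omega) (by omega), if_pos ⟨n + 1, by ring⟩]
          congr 1
          omega
        rw [e3]
        by_cases hm2 : m ≤ n
        · rw [if_pos hm2, if_pos (by omega)]
          ring
        · rw [if_neg hm2, if_neg (by omega)]
          ring
  have h2 := h1 (2 * m) le_rfl
  rw [if_pos (by omega)] at h2
  rw [show 4 * m = 2 * (2 * m) by ring, h2]
  ring

/-- **Complete intersections.** -/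
theorem middle (X : Variety) (m : ℕ) (hX : IsMiddle X m) (B : Nat.Primes → ℂ[X])
    (hB : IsEuler (2 * m) (fun p => X.frob p (2 * m)) B) (k : ℤ) :
    HasOrder (2 * m) B (-k) ↔ ∃ c : ℝ, Tendsto (fun N : ℕ => ∑ p ∈ primesLE N,
      ((points X p - ∑ j ∈ Finset.range (2 * m + 1), ((p : ℕ) : ℝ) ^ j) / ((p : ℕ) : ℝ) ^ m -
        (k - 1)) / ((p : ℕ) : ℝ)) atTop (𝓝 c) := by
  obtain ⟨b, E, u, M, δ, h, hb⟩ := variety_model X hB
  have h1 := h.order_iff k
  unfold Pool.Agent.Y149.PK.HasOrder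
  rw [neg_neg]
  refine h1.trans ?_
  have h2 : ∀ᶠ p : Nat.Primes in cofinite, (points X p -
      ∑ j ∈ Finset.range (2 * m + 1), ((p : ℕ) : ℝ) ^ j) / ((p : ℕ) : ℝ) ^ m + 1 = b p := by
    filter_upwards [hb, hX.2, X.good] with p h3 h4 h5
    have h6 := points_eq X p h5.1
    have e1 : 2 * X.dim + 1 = 4 * m + 1 := by rw [hX.1]; ring
    rw [e1, alt_sum (fun a => (X.frob p a).sum.re) ((p : ℕ) : ℝ) m] at h6
    · rw [h6, h3.1]
      have e2 : (((2 * m : ℕ) : ℝ) / 2) = m := by push_cast; ring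
      rw [e2, Real.rpow_natCast]
      have hp0 : ((p : ℕ) : ℝ) ^ m ≠ 0 := pow_ne_zero _ (p_pos p).ne'
      field_simp
      ring
    · intro a ha ha2
      rw [h4 a ha ha2]
      split_ifs with hev
      · rw [Multiset.sum_singleton]
        norm_cast
      · simp
  refine (trace_real h2 k).symm.trans ?_
  refine exists_congr fun c => ?_
  refine tendsto_congr fun N => ?_
  refine Finset.sum_congr rfl fun p _ => ?_
  congr 1
  ring

/-- **Varieties with `H¹ = 0`.** -/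
theorem simply (X : Variety) (hX : IsConnected X)
    (h : ∀ᶠ p : Nat.Primes in cofinite, X.frob p 1 = 0) (B : Nat.Primes → ℂ[X])
    (hB : IsEuler 2 (fun p => X.frob p 2) B) (k : ℤ) :
    (HasOrder 2 B (-k) ↔ ProductLaw (fun p => points X p / ((p : ℕ) : ℝ) ^ X.dim) k) ∧
    (HasOrder 2 B (-k) ↔ ∃ c : ℝ, Tendsto (fun N : ℕ => ∑ p ∈ primesLE N,
      (points X p / ((p : ℕ) : ℝ) ^ X.dim - 1 - k / ((p : ℕ) : ℝ))) atTop (𝓝 c)) := by
  obtain ⟨⟨C, hC⟩, T0, hT0⟩ := one_variety hX h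
  rw [order_iff_conv X hB k]
  refine ⟨law_of_forall hT0 k, ?_⟩
  -- the sum
  set d : Nat.Primes → ℝ := fun p => xx X p - b2 X p / ((p : ℕ) : ℝ) with hd
  have hsum : Summable d := by
    have hs := (Nat.Primes.summable_rpow.mpr (show (-(3 / 2) : ℝ) < -1 by norm_num)).mul_left C
    exact Summable.of_norm_bounded_eventually hs (by simpa [hd, Real.norm_eq_abs] using hC)
  have hdl : Tendsto (fun N : ℕ => ∑ p ∈ primesLE N, d p) atTop (𝓝 (∑' p, d p)) :=
    hsum.hasSum.comp primesLE_tendsto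
  have h1 := trace_iff (b := b2 X) (tr := fun p => (b2 X p : ℂ)) ∅ (fun _ _ => rfl) k
  have e1 : ∀ N : ℕ, ∑ p ∈ primesLE N, (points X p / ((p : ℕ) : ℝ) ^ X.dim - 1 - k / ((p : ℕ) : ℝ)) =
      ∑ p ∈ primesLE N, (b2 X p - k) / ((p : ℕ) : ℝ) + ∑ p ∈ primesLE N, d p := by
    intro N
    rw [← Finset.sum_add_distrib]
    refine Finset.sum_congr rfl fun p _ => ?_
    rw [hd]
    unfold xx
    ring
  have e2 : ∀ N : ℕ, ∑ p ∈ primesLE N, ((b2 X p : ℂ) - k) / ((p : ℕ) : ℂ) =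
      ((∑ p ∈ primesLE N, (b2 X p - k) / ((p : ℕ) : ℝ) : ℝ) : ℂ) := by
    intro N
    push_cast
    rfl
  have h2 : (∃ c : ℝ, Tendsto (fun N : ℕ => ∑ p ∈ primesLE N, (b2 X p - k) / ((p : ℕ) : ℝ)) atTop
      (𝓝 c)) ↔ Conv (b2 X) k := by
    refine Iff.trans ?_ h1
    constructor
    · rintro ⟨c, hc⟩
      exact ⟨c, ((Complex.continuous_ofReal.tendsto _).comp hc).congr fun N => (e2 N).symm⟩
    · rintro ⟨c, hc⟩
      refine ⟨c.re, ((Complex.continuous_re.tendsto _).comp hc).congr fun N => ?_⟩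
      simp only [Function.comp_apply]
      rw [e2, Complex.ofReal_re]
  rw [← h2]
  constructor
  · rintro ⟨c, hc⟩
    exact ⟨_, (hc.add hdl).congr fun N => (e1 N).symm⟩
  · rintro ⟨c, hc⟩
    refine ⟨_, (hc.sub hdl).congr fun N => ?_⟩
    rw [e1]
    ring

/-- **Two varieties with the same `H¹`.** -/
theorem pair (X Y : Variety) (hX : IsConnected X) (hY : IsConnected Y)
    (h : ∀ᶠ p : Nat.Primes in cofinite, X.frob p 1 = Y.frob p 1) (B B' : Nat.Primes → ℂ[X])
    (hB : IsEuler 2 (fun p => X.frob p 2) B) (hB' : IsEuler 2 (fun p => Y.frob p 2) B') (k : ℤ) :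
    (HasQuotientOrder 2 B B' (-k) ↔ ProductLaw (fun p =>
      (points X p / ((p : ℕ) : ℝ) ^ X.dim) / (points Y p / ((p : ℕ) : ℝ) ^ Y.dim)) k) ∧
    ∀ r : ℤ, HasOrder 2 B' (-r) → (HasOrder 2 B (-k) ↔ ProductLaw (fun p =>
      (points X p / ((p : ℕ) : ℝ) ^ X.dim) / (points Y p / ((p : ℕ) : ℝ) ^ Y.dim)) (k - r)) := by
  obtain ⟨T0, hT0⟩ := two_varieties hX hY h
  constructor
  · rw [quotient_iff_conv X Y hB hB' k]
    exact law_of_forall hT0 k
  · intro r hr
    rw [order_iff_conv Y hB' r] at hr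
    rw [order_iff_conv X hB k, hr.sub_iff k]
    exact law_of_forall hT0 (k - r)

/-- **The comparison with a curve.** -/
theorem curve (X Y : Variety) (hX : IsConnected X) (hY : IsConnected Y) (hdim : Y.dim = 1)
    (h : ∀ᶠ p : Nat.Primes in cofinite, X.frob p 1 = Y.frob p 1) (B : Nat.Primes → ℂ[X])
    (hB : IsEuler 2 (fun p => X.frob p 2) B) (k : ℤ) :
    HasOrder 2 B (-k) ↔ ProductLaw (fun p =>
      (points X p / ((p : ℕ) : ℝ) ^ X.dim) / (points Y p / ((p : ℕ) : ℝ))) (k - 1) := by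
  obtain ⟨T0, hT0⟩ := two_varieties hX hY h
  have hb : ∀ᶠ p : Nat.Primes in cofinite, b2 Y p = 1 := by
    filter_upwards [hY.2] with p hp
    have h1 := hp.2 0 (by omega)
    rw [hp.1, hdim] at h1
    rw [b2_eq]
    have h2 : Y.frob p 2 = {((p : ℕ) : ℂ)} := by
      have h3 := h1
      simp only [mul_one, Nat.sub_zero, pow_one, Multiset.map_singleton, div_one] at h3
      exact h3
    rw [h2, Multiset.sum_singleton, Complex.natCast_re, div_self (p_pos p).ne']
  have hc : Conv (b2 Y) 1 := (Conv.congr hb).mpr conv_one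
  rw [order_iff_conv X hB k, hc.sub_iff k]
  have h1 := law_of_forall hT0 (k - 1)
  rw [hdim] at h1
  simp only [pow_one] at h1
  exact h1

end Pool.Agent.D0H93.TM
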