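import Pool.Agent.D0H93.TM.Unc
import Pool.Agent.D0H93.TM.Defs

/-! Euler products at the edge of absolute convergence. -/

set_option autoImplicit false

namespace Pool.Agent.D0H93.TM

open Filter Topology Set
open Pool.Agent.H305R2 (fp kk fp_nonneg)

/-- The local factors `F p ε` are `exp(b(p) p^{-1-ε} + E(p, ε))` with bounded `b` and small `E`. -/
structure Model (F : Nat.Primes → ℝ → ℂ) (b : Nat.Primes → ℝ) (E : Nat.Primes → ℝ → ℂ)
    (u : Nat.Primes → ℝ) (M δ : ℝ) : Prop where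
  pos : 0 < δ
  bound : ∀ p, |b p| ≤ M
  eq : ∀ p ε, 0 ≤ ε → ε < δ →
    F p ε = Complex.exp (((b p * ((p : ℕ) : ℝ) ^ (-(1 + ε)) : ℝ) : ℂ) + E p ε)
  le : ∀ p ε, 0 ≤ ε → ε < δ → ‖E p ε‖ ≤ u p
  sum : Summable u
  cont : ∀ p, Tendsto (E p) (𝓝[>] 0) (𝓝 (E p 0))

/-- extension by zero -/
noncomputable def ext (b : Nat.Primes → ℝ) (n : ℕ) : ℝ := if h : n.Prime then b ⟨n, h⟩ else 0

theorem ext_prime (b : Nat.Primes → ℝ) (p : Nat.Primes) : ext b p = b p := by
  unfold ext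
  rw [dif_pos p.2]
  rfl

theorem mem_primesLE {p : Nat.Primes} {N : ℕ} : p ∈ primesLE N ↔ (p : ℕ) ≤ N := by
  have h : p ∈ primesLE N ↔ (p : ℕ) ∈ Finset.range (N + 1) := Finset.mem_subtype
  rw [h, Finset.mem_range]
  omega

theorem ext_bound {b : Nat.Primes → ℝ} {M : ℝ} (hM : 0 ≤ M) (h : ∀ p, |b p| ≤ M) (n : ℕ) :
    |ext b n| ≤ M := by
  unfold ext
  split_ifs
  · exact h _
  · rwa [abs_zero]

theorem sum_primesLE {A : Type} [AddCommMonoid A] (g : ℕ → A) (N : ℕ) :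
    ∑ p ∈ primesLE N, g p = ∑ n ∈ (Finset.range (N + 1)).filter Nat.Prime, g n :=
  Finset.sum_subtype_eq_sum_filter g

theorem primesLE_tendsto : Tendsto primesLE atTop atTop := by
  refine tendsto_atTop_finset_of_monotone ?_ ?_
  · intro a b h p hp
    exact mem_primesLE.mpr ((mem_primesLE.mp hp).trans h)
  · intro p
    exact ⟨p, mem_primesLE.mpr le_rfl⟩

theorem prime_term (b : Nat.Primes → ℝ) (p : Nat.Primes) (ε : ℝ) :
    b p * ((p : ℕ) : ℝ) ^ (-(1 + ε)) = ext b p * fp p * ((p : ℕ) : ℝ) ^ (-ε) := by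
  have hp0 : (0 : ℝ) < ((p : ℕ) : ℝ) := by exact_mod_cast p.2.pos
  rw [ext_prime]
  unfold Pool.Agent.H305R2.fp
  rw [if_pos p.2, neg_add, Real.rpow_add hp0, Real.rpow_neg_one, one_div]
  ring

section

variable {F : Nat.Primes → ℝ → ℂ} {b : Nat.Primes → ℝ} {E : Nat.Primes → ℝ → ℂ}
  {u : Nat.Primes → ℝ} {M δ : ℝ}

theorem Model.M_nonneg (h : Model F b E u M δ) : 0 ≤ M :=
  (abs_nonneg _).trans (h.bound ⟨2, Nat.prime_two⟩)

theorem Model.ext_bound (h : Model F b E u M δ) (n : ℕ) : |ext b n| ≤ M :=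
  Pool.Agent.D0H93.TM.ext_bound h.M_nonneg h.bound n

/-- the sum over the primes -/
noncomputable def hh (b : Nat.Primes → ℝ) (ε : ℝ) : ℝ := ∑' n : ℕ, ext b n * fp n * (n : ℝ) ^ (-ε)

/-- the partial sum -/
noncomputable def hN (b : Nat.Primes → ℝ) (N : ℕ) : ℝ := ∑ n ∈ Finset.range (N + 1), ext b n * fp n

theorem Model.hasSum_b (h : Model F b E u M δ) {ε : ℝ} (hε : 0 < ε) :
    HasSum (fun p : Nat.Primes => b p * ((p : ℕ) : ℝ) ^ (-(1 + ε))) (hh b ε) := by
  have hs := bfp_summable h.ext_bound hε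
  have h1 : HasSum (fun n : ℕ => ext b n * fp n * (n : ℝ) ^ (-ε)) (hh b ε) := hs.hasSum
  have h2 : Function.support (fun n : ℕ => ext b n * fp n * (n : ℝ) ^ (-ε)) ⊆
      {n : ℕ | n.Prime} := by
    intro n hn
    by_contra hcon
    apply hn
    have : fp n = 0 := by
      unfold Pool.Agent.H305R2.fp
      exact if_neg hcon
    simp [this]
  have h3 : HasSum (fun p : Nat.Primes => ext b p * fp p * ((p : ℕ) : ℝ) ^ (-ε)) (hh b ε) :=
    (hasSum_subtype_iff_of_support_subset h2).mpr h1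
  have h4 : (fun p : Nat.Primes => b p * ((p : ℕ) : ℝ) ^ (-(1 + ε))) =
      fun p : Nat.Primes => ext b p * fp p * ((p : ℕ) : ℝ) ^ (-ε) :=
    funext fun p => prime_term b p ε
  rw [h4]
  exact h3

theorem Model.summable_E (h : Model F b E u M δ) {ε : ℝ} (hε : 0 ≤ ε) (hδ : ε < δ) :
    Summable fun p => E p ε := Summable.of_norm_bounded h.sum fun p => h.le p ε hε hδ

theorem Model.hasProd (h : Model F b E u M δ) {ε : ℝ} (hε : 0 < ε) (hδ : ε < δ) :
    HasProd (fun p => F p ε) (Complex.exp ((hh b ε : ℂ) + ∑' p, E p ε)) := by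
  have h1 : HasSum (fun p : Nat.Primes => ((b p * ((p : ℕ) : ℝ) ^ (-(1 + ε)) : ℝ) : ℂ)) (hh b ε : ℂ) :=
    Complex.hasSum_ofReal.mpr (h.hasSum_b hε)
  have h3 := (h1.add (h.summable_E hε.le hδ).hasSum).cexp
  have h4 : (fun p => F p ε) = Complex.exp ∘ fun p =>
      (((b p * ((p : ℕ) : ℝ) ^ (-(1 + ε)) : ℝ) : ℂ)) + E p ε :=
    funext fun p => h.eq p ε hε.le hδ
  rw [h4]
  exact h3

theorem Model.E_tendsto (h : Model F b E u M δ) :
    Tendsto (fun ε : ℝ => ∑' p, E p ε) (𝓝[>] 0) (𝓝 (∑' p, E p 0)) := by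
  refine tendsto_tsum_of_dominated_convergence h.sum h.cont ?_
  have h1 : ∀ᶠ ε : ℝ in 𝓝[>] 0, ε < δ := (eventually_lt_nhds h.pos).filter_mono nhdsWithin_le_nhds
  filter_upwards [self_mem_nhdsWithin, h1] with ε hε hδ p
  exact h.le p ε (le_of_lt hε) hδ

theorem Model.prod_N (h : Model F b E u M δ) (N : ℕ) : ∏ p ∈ primesLE N, F p 0 =
    Complex.exp ((hN b N : ℂ) + ∑ p ∈ primesLE N, E p 0) := by
  have h1 : (hN b N : ℂ) = ∑ p ∈ primesLE N, ((b p * ((p : ℕ) : ℝ) ^ (-(1 + (0 : ℝ))) : ℝ) : ℂ) := by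
    have h2 : hN b N = ∑ p ∈ primesLE N, b p * ((p : ℕ) : ℝ) ^ (-(1 + (0 : ℝ))) := by
      have h3 : ∀ p ∈ primesLE N, b p * ((p : ℕ) : ℝ) ^ (-(1 + (0 : ℝ))) = ext b p * fp p := by
        intro p _
        rw [prime_term, neg_zero, Real.rpow_zero, mul_one]
      rw [Finset.sum_congr rfl h3, sum_primesLE (fun n => ext b n * fp n), Finset.sum_filter]
      unfold hN
      refine Finset.sum_congr rfl fun n _ => ?_
      split_ifs with hn
      · rfl
      · unfold Pool.Agent.H305R2.fp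
        rw [if_neg hn, mul_zero]
    rw [h2, Complex.ofReal_sum]
  rw [h1, ← Finset.sum_add_distrib, Complex.exp_sum]
  exact Finset.prod_congr rfl fun p _ => h.eq p 0 le_rfl h.pos

theorem Model.E_N (h : Model F b E u M δ) :
    Tendsto (fun N : ℕ => ∑ p ∈ primesLE N, E p 0) atTop (𝓝 (∑' p, E p 0)) :=
  (h.summable_E le_rfl h.pos).hasSum.comp primesLE_tendsto

/-- limits of exponentials -/
theorem exp_lim {α : Type} {l : Filter α} [NeBot l] {g : α → ℝ} {R : α → ℂ} {R0 a : ℂ}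
    (hR : Tendsto R l (𝓝 R0)) (ha : a ≠ 0)
    (h : Tendsto (fun x => Complex.exp (g x + R x)) l (𝓝 a)) :
    ∃ c : ℝ, Tendsto g l (𝓝 c) ∧ a = Complex.exp (c + R0) := by
  have h1 := h.norm.log (norm_ne_zero_iff.mpr ha)
  have h2 : (fun x => Real.log ‖Complex.exp (g x + R x)‖) = fun x => g x + (R x).re := by
    funext x
    rw [Complex.norm_exp, Real.log_exp]
    simp
  rw [h2] at h1
  have h3 : Tendsto (fun x => (R x).re) l (𝓝 R0.re) := (Complex.continuous_re.tendsto _).comp hR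
  have h4 : Tendsto g l (𝓝 (Real.log ‖a‖ - R0.re)) := by
    refine (h1.sub h3).congr fun x => by ring
  refine ⟨_, h4, ?_⟩
  have h5 : Tendsto (fun x => Complex.exp (g x + R x)) l
      (𝓝 (Complex.exp ((Real.log ‖a‖ - R0.re : ℝ) + R0))) :=
    ((((Complex.continuous_ofReal.tendsto _).comp h4).add hR).cexp)
  exact tendsto_nhds_unique h h5

theorem exp_lim' {α : Type} {l : Filter α} {g : α → ℝ} {R : α → ℂ} {R0 : ℂ} {c : ℝ}
    (hR : Tendsto R l (𝓝 R0)) (h : Tendsto g l (𝓝 c)) :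
    Tendsto (fun x => Complex.exp (g x + R x)) l (𝓝 (Complex.exp (c + R0))) :=
  (((Complex.continuous_ofReal.tendsto _).comp h).add hR).cexp

theorem Model.A_eq (h : Model F b E u M δ) (k : ℤ) : ∀ᶠ ε : ℝ in 𝓝[>] 0,
    Complex.exp (((hh b ε + k * Real.log ε : ℝ) : ℂ) + ∑' p, E p ε) =
      (ε : ℂ) ^ k * ∏' p, F p ε := by
  have h1 : ∀ᶠ ε : ℝ in 𝓝[>] 0, ε < δ := (eventually_lt_nhds h.pos).filter_mono nhdsWithin_le_nhds
  filter_upwards [self_mem_nhdsWithin, h1] with ε hε hδ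
  have hε0 : (0 : ℝ) < ε := hε
  rw [(h.hasProd hε0 hδ).tprod_eq]
  have h2 : (ε : ℂ) ^ k = Complex.exp ((k * Real.log ε : ℝ) : ℂ) := by
    rw [← Complex.ofReal_zpow, ← Complex.ofReal_exp]
    congr 1
    rw [mul_comm, Real.exp_mul, Real.exp_log hε0, Real.rpow_intCast]
  rw [h2, ← Complex.exp_add]
  congr 1
  push_cast
  ring

theorem Model.P_eq (h : Model F b E u M δ) (k : ℤ) : ∀ᶠ N : ℕ in atTop,
    Complex.exp (((hN b N - k * Real.log (Real.log N) : ℝ) : ℂ) + ∑ p ∈ primesLE N, E p 0) =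
      (∏ p ∈ primesLE N, F p 0) / ((Real.log N : ℝ) : ℂ) ^ k := by
  filter_upwards [eventually_ge_atTop 2] with N hN2
  have hN2' : (2 : ℝ) ≤ N := by exact_mod_cast hN2
  have hl : 0 < Real.log N := Real.log_pos (by linarith)
  have h2 : ((Real.log N : ℝ) : ℂ) ^ k = Complex.exp ((k * Real.log (Real.log N) : ℝ) : ℂ) := by
    rw [← Complex.ofReal_zpow, ← Complex.ofReal_exp]
    congr 1
    rw [mul_comm, Real.exp_mul, Real.exp_log hl, Real.rpow_intCast]
  rw [h2, h.prod_N, ← Complex.exp_sub]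
  congr 1
  push_cast
  ring

/-- **Order and the sum over the primes.** -/
theorem Model.order_iff (h : Model F b E u M δ) (k : ℤ) :
    (∃ a : ℂ, a ≠ 0 ∧ Tendsto (fun ε : ℝ => (ε : ℂ) ^ k * ∏' p, F p ε) (𝓝[>] 0) (𝓝 a)) ↔
    ∃ c : ℝ, Tendsto (fun N : ℕ => hN b N - k * Real.log (Real.log N)) atTop (𝓝 c) := by
  constructor
  · rintro ⟨a, ha, h1⟩
    obtain ⟨c, hc, _⟩ := exp_lim (g := fun ε => hh b ε + k * Real.log ε) h.E_tendsto ha
      (h1.congr' ((h.A_eq k).mono fun _ h => h.symm))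
    exact ⟨_, (edge_iff h.ext_bound k c).mp hc⟩
  · rintro ⟨c, hc⟩
    have h1 := (edge_iff h.ext_bound k (c - k * Real.eulerMascheroniConstant)).mpr
      (by rw [sub_add_cancel]; exact hc)
    exact ⟨_, Complex.exp_ne_zero _, (exp_lim' h.E_tendsto h1).congr' (h.A_eq k)⟩

/-- **Order and the partial Euler products.** -/
theorem Model.product_iff (h : Model F b E u M δ) (k : ℤ) {a : ℂ} (ha : a ≠ 0) :
    Tendsto (fun ε : ℝ => (ε : ℂ) ^ k * ∏' p, F p ε) (𝓝[>] 0) (𝓝 a) ↔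
    Tendsto (fun N : ℕ => (∏ p ∈ primesLE N, F p 0) / ((Real.log N : ℝ) : ℂ) ^ k) atTop
      (𝓝 (Complex.exp (k * Real.eulerMascheroniConstant) * a)) := by
  constructor
  · intro h1
    obtain ⟨c, hc, hac⟩ := exp_lim (g := fun ε => hh b ε + k * Real.log ε) h.E_tendsto ha
      (h1.congr' ((h.A_eq k).mono fun _ h => h.symm))
    have h2 := (edge_iff h.ext_bound k c).mp hc
    have h3 := (exp_lim' h.E_N h2).congr' (h.P_eq k)
    convert h3 using 2
    rw [hac, ← Complex.exp_add]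
    congr 1
    push_cast
    ring
  · intro h1
    have ha' : Complex.exp (k * Real.eulerMascheroniConstant) * a ≠ 0 :=
      mul_ne_zero (Complex.exp_ne_zero _) ha
    obtain ⟨c, hc, hac⟩ := exp_lim (g := fun N : ℕ => hN b N - k * Real.log (Real.log N)) h.E_N ha'
      (h1.congr' ((h.P_eq k).mono fun _ h => h.symm))
    have h2 := (edge_iff h.ext_bound k (c - k * Real.eulerMascheroniConstant)).mpr
      (by rw [sub_add_cancel]; exact hc)
    have h3 := (exp_lim' h.E_tendsto h2).congr' (h.A_eq k)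
    convert h3 using 2
    have h4 : a = Complex.exp (-(k * Real.eulerMascheroniConstant)) *
        (Complex.exp (k * Real.eulerMascheroniConstant) * a) := by
      rw [← mul_assoc, ← Complex.exp_add, neg_add_cancel, Complex.exp_zero, one_mul]
    rw [h4, hac, ← Complex.exp_add]
    congr 1
    push_cast
    ring

/-- **Partial products and the sum over the primes.** -/
theorem Model.partial_iff (h : Model F b E u M δ) (k : ℤ) :
    (∃ a : ℂ, a ≠ 0 ∧ Tendsto (fun N : ℕ => (∏ p ∈ primesLE N, F p 0) /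
      ((Real.log N : ℝ) : ℂ) ^ k) atTop (𝓝 a)) ↔
    ∃ c : ℝ, Tendsto (fun N : ℕ => hN b N - k * Real.log (Real.log N)) atTop (𝓝 c) := by
  constructor
  · rintro ⟨a, ha, h1⟩
    obtain ⟨c, hc, _⟩ := exp_lim (g := fun N : ℕ => hN b N - k * Real.log (Real.log N)) h.E_N ha
      (h1.congr' ((h.P_eq k).mono fun _ h => h.symm))
    exact ⟨c, hc⟩
  · rintro ⟨c, hc⟩
    exact ⟨_, Complex.exp_ne_zero _, (exp_lim' h.E_N hc).congr' (h.P_eq k)⟩

theorem Model.norm_L (h : Model F b E u M δ) {ε : ℝ} (hε : 0 < ε) (hδ : ε < δ) :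
    Real.log ‖∏' p, F p ε‖ = hh b ε + (∑' p, E p ε).re := by
  rw [(h.hasProd hε hδ).tprod_eq, Complex.norm_exp, Real.log_exp]
  simp

theorem Model.norm_P (h : Model F b E u M δ) (N : ℕ) :
    Real.log ‖∏ p ∈ primesLE N, F p 0‖ = hN b N + (∑ p ∈ primesLE N, E p 0).re := by
  rw [h.prod_N, Complex.norm_exp, Real.log_exp, Complex.add_re, Complex.ofReal_re]

/-- **Unconditional comparison.** -/
theorem Model.uncond (h : Model F b E u M δ) : ∃ C : ℝ, ∀ᶠ ε : ℝ in 𝓝[>] 0,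
    |Real.log ‖∏' p, F p ε‖ - Real.log ‖∏ p ∈ primesLE ⌊Real.exp (1 / ε)⌋₊, F p 0‖| ≤ C := by
  obtain ⟨C, hC⟩ := Pool.Agent.D0H93.TM.uncond h.ext_bound
  have h1 : ∀ᶠ ε : ℝ in 𝓝[>] 0, ε < δ := (eventually_lt_nhds h.pos).filter_mono nhdsWithin_le_nhds
  refine ⟨C + 2 * ∑' p, u p, ?_⟩
  filter_upwards [self_mem_nhdsWithin, h1, hC] with ε hε hδ h2
  rw [h.norm_L hε hδ, h.norm_P]
  have h3 : |(∑' p, E p ε).re| ≤ ∑' p, u p :=
    (Complex.abs_re_le_norm _).trans (tsum_of_norm_bounded h.sum.hasSum fun p =>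
      h.le p ε (le_of_lt hε) hδ)
  have h4 : |(∑ p ∈ primesLE ⌊Real.exp (1 / ε)⌋₊, E p 0).re| ≤ ∑' p, u p := by
    refine (Complex.abs_re_le_norm _).trans ((norm_sum_le _ _).trans ?_)
    refine (Finset.sum_le_sum fun p _ => h.le p 0 le_rfl h.pos).trans ?_
    exact h.sum.sum_le_tsum _ fun p _ => (norm_nonneg _).trans (h.le p 0 le_rfl h.pos)
  have h5 : |hh b ε - hN b ⌊Real.exp (1 / ε)⌋₊| ≤ C := h2
  have e1 := abs_le.mp h3
  have e2 := abs_le.mp h4
  have e3 := abs_le.mp h5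
  rw [abs_le]
  constructor <;> linarith

/-- **Orders in the weak sense.** -/
theorem Model.weak_iff (h : Model F b E u M δ) (κ : ℝ) :
    Tendsto (fun ε : ℝ => Real.log ‖∏' p, F p ε‖ / Real.log (1 / ε)) (𝓝[>] 0) (𝓝 κ) ↔
    Tendsto (fun N : ℕ => Real.log ‖∏ p ∈ primesLE N, F p 0‖ / Real.log (Real.log N)) atTop (𝓝 κ) := by
  obtain ⟨C, hC⟩ := h.uncond
  have hC0 : 0 ≤ C := by
    obtain ⟨ε, hε⟩ := hC.exists
    exact (abs_nonneg _).trans hε
  have hinf : Tendsto (fun ε : ℝ => Real.log (1 / ε)) (𝓝[>] 0) atTop := by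
    have h0 : Tendsto (fun ε : ℝ => 1 / ε) (𝓝[>] 0) atTop := by
      simp only [one_div]
      exact tendsto_inv_nhdsGT_zero
    exact Real.tendsto_log_atTop.comp h0
  constructor
  · intro h1
    have hlog : Tendsto (fun N : ℕ => Real.log (N : ℝ)) atTop atTop :=
      Real.tendsto_log_atTop.comp tendsto_natCast_atTop_atTop
    have h2 : Tendsto (fun N : ℕ => 1 / Real.log (N : ℝ)) atTop (𝓝[>] 0) := by
      simp only [one_div]
      exact tendsto_inv_atTop_nhdsGT_zero.comp hlog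
    have h3 := h1.comp h2
    have h4 := h2.eventually hC
    have h5 : Tendsto (fun N : ℕ => Real.log (Real.log (N : ℝ))) atTop atTop :=
      Real.tendsto_log_atTop.comp hlog
    have h6 : Tendsto (fun N : ℕ => C / Real.log (Real.log (N : ℝ))) atTop (𝓝 0) :=
      tendsto_const_nhds.div_atTop h5
    have h7 : Tendsto (fun N : ℕ => Real.log ‖∏ p ∈ primesLE N, F p 0‖ / Real.log (Real.log N) -
        Real.log ‖∏' p, F p (1 / Real.log (N : ℝ))‖ / Real.log (Real.log N)) atTop (𝓝 0) := by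
      refine squeeze_zero_norm' ?_ h6
      filter_upwards [h4, eventually_ge_atTop 3, h5.eventually_gt_atTop 0] with N h8 h9 h10
      have hN3 : (3 : ℝ) ≤ N := by exact_mod_cast h9
      have hl : 0 < Real.log (N : ℝ) := Real.log_pos (by linarith)
      rw [one_div_one_div, Real.exp_log (by linarith), Nat.floor_natCast] at h8
      rw [← sub_div, Real.norm_eq_abs, abs_div, abs_of_pos h10, abs_sub_comm]
      exact div_le_div_of_nonneg_right h8 h10.le
    have h8 := h7.add h3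
    rw [zero_add] at h8
    refine h8.congr fun N => ?_
    simp only [Function.comp_apply, one_div_one_div]
    ring
  · intro h1
    have h3 := h1.comp floor_tendsto
    have h4 : Tendsto (fun ε : ℝ => Real.log (Real.log (⌊Real.exp (1 / ε)⌋₊ : ℝ)) /
        Real.log (1 / ε)) (𝓝[>] 0) (𝓝 1) := by
      have h5 := (loglog_floor.div_atTop hinf).add_const 1
      rw [zero_add] at h5
      refine h5.congr' ?_
      filter_upwards [hinf.eventually_gt_atTop 0, self_mem_nhdsWithin] with ε h6 hε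
      have e : Real.log (1 / ε) = -Real.log ε := by rw [one_div, Real.log_inv]
      rw [e] at h6 ⊢
      have h8 : Real.log ε ≠ 0 := by
        intro h
        rw [h, neg_zero] at h6
        exact lt_irrefl _ h6
      field_simp
      ring
    have h5 : Tendsto (fun ε : ℝ => C / Real.log (1 / ε)) (𝓝[>] 0) (𝓝 0) :=
      tendsto_const_nhds.div_atTop hinf
    have h7 : Tendsto (fun ε : ℝ => Real.log ‖∏' p, F p ε‖ / Real.log (1 / ε) -
        Real.log ‖∏ p ∈ primesLE ⌊Real.exp (1 / ε)⌋₊, F p 0‖ / Real.log (1 / ε)) (𝓝[>] 0) (𝓝 0) := by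
      refine squeeze_zero_norm' ?_ h5
      filter_upwards [hC, hinf.eventually_gt_atTop 0] with ε h8 h10
      rw [← sub_div, Real.norm_eq_abs, abs_div, abs_of_pos h10]
      exact div_le_div_of_nonneg_right h8 h10.le
    have h8 := h7.add (h3.mul h4)
    rw [zero_add, mul_one] at h8
    refine h8.congr' ?_
    have h9 : ∀ᶠ ε : ℝ in 𝓝[>] 0, 0 < Real.log (Real.log (⌊Real.exp (1 / ε)⌋₊ : ℝ)) := by
      have hlog : Tendsto (fun N : ℕ => Real.log (Real.log (N : ℝ))) atTop atTop :=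
        Real.tendsto_log_atTop.comp (Real.tendsto_log_atTop.comp tendsto_natCast_atTop_atTop)
      exact (hlog.comp floor_tendsto).eventually_gt_atTop 0
    filter_upwards [h9] with ε h10
    simp only [Function.comp_apply]
    field_simp
    ring

/-- quotients -/
theorem Model.div {F' : Nat.Primes → ℝ → ℂ} {b' : Nat.Primes → ℝ} {E' : Nat.Primes → ℝ → ℂ}
    {u' : Nat.Primes → ℝ} {M' δ' : ℝ} (h : Model F b E u M δ) (h' : Model F' b' E' u' M' δ') :
    Model (fun p ε => F p ε / F' p ε) (fun p => b p - b' p) (fun p ε => E p ε - E' p ε)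
      (fun p => u p + u' p) (M + M') (min δ δ') where
  pos := lt_min h.pos h'.pos
  bound := fun p => (abs_sub _ _).trans (add_le_add (h.bound p) (h'.bound p))
  eq := fun p ε h1 h2 => by
    rw [h.eq p ε h1 (h2.trans_le (min_le_left _ _)), h'.eq p ε h1 (h2.trans_le (min_le_right _ _)),
      ← Complex.exp_sub]
    congr 1
    push_cast
    ring
  le := fun p ε h1 h2 => (norm_sub_le _ _).trans (add_le_add
    (h.le p ε h1 (h2.trans_le (min_le_left _ _))) (h'.le p ε h1 (h2.trans_le (min_le_right _ _))))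
  sum := h.sum.add h'.sum
  cont := fun p => (h.cont p).sub (h'.cont p)

/-- the partial sums for two functions which agree at almost all primes -/
theorem hN_congr {b b' : Nat.Primes → ℝ} (T : Finset Nat.Primes) (h : ∀ p, p ∉ T → b p = b' p) :
    ∃ c : ℝ, ∀ᶠ N : ℕ in atTop, hN b N = hN b' N + c := by
  have hsum : ∀ (b : Nat.Primes → ℝ) (N : ℕ), hN b N = ∑ p ∈ primesLE N, b p * fp p := by
    intro b N
    have h3 : ∀ p ∈ primesLE N, b p * fp p = ext b p * fp p := by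
      intro p _
      rw [ext_prime]
    rw [Finset.sum_congr rfl h3, sum_primesLE (fun n => ext b n * fp n), Finset.sum_filter]
    unfold hN
    refine Finset.sum_congr rfl fun n _ => ?_
    split_ifs with hn
    · rfl
    · unfold Pool.Agent.H305R2.fp
      rw [if_neg hn, mul_zero]
  refine ⟨∑ p ∈ T, (b p - b' p) * fp p, ?_⟩
  filter_upwards [primesLE_tendsto.eventually_ge_atTop T] with N hN'
  rw [hsum, hsum, add_comm, ← sub_eq_iff_eq_add, ← Finset.sum_sub_distrib]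
  symm
  rw [Finset.sum_subset hN' (f := fun p => (b p - b' p) * fp p)]
  · exact Finset.sum_congr rfl fun p _ => by ring
  · intro p _ hp
    rw [h p hp, sub_self, zero_mul]

theorem hN_conv {b b' : Nat.Primes → ℝ} (T : Finset Nat.Primes) (h : ∀ p, p ∉ T → b p = b' p)
    (k : ℤ) : (∃ c : ℝ, Tendsto (fun N : ℕ => hN b N - k * Real.log (Real.log N)) atTop (𝓝 c)) ↔
    ∃ c : ℝ, Tendsto (fun N : ℕ => hN b' N - k * Real.log (Real.log N)) atTop (𝓝 c) := by
  have key : ∀ b b' : Nat.Primes → ℝ, (∀ p, p ∉ T → b p = b' p) →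
      (∃ c : ℝ, Tendsto (fun N : ℕ => hN b N - k * Real.log (Real.log N)) atTop (𝓝 c)) →
      ∃ c : ℝ, Tendsto (fun N : ℕ => hN b' N - k * Real.log (Real.log N)) atTop (𝓝 c) := by
    rintro b b' h ⟨c, hc⟩
    obtain ⟨c', hc'⟩ := hN_congr T h
    refine ⟨c - c', (hc.sub_const c').congr' ?_⟩
    filter_upwards [hc'] with N hN'
    rw [hN']
    ring
  exact ⟨key b b' h, key b' b fun p hp => (h p hp).symm⟩

theorem hN_eq (b : Nat.Primes → ℝ) (N : ℕ) : hN b N = ∑ p ∈ primesLE N, b p / ((p : ℕ) : ℝ) := by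
  have h3 : ∀ p ∈ primesLE N, b p / ((p : ℕ) : ℝ) = ext b p * fp p := by
    intro p _
    rw [ext_prime]
    unfold Pool.Agent.H305R2.fp
    rw [if_pos p.2, mul_one_div]
  rw [Finset.sum_congr rfl h3, sum_primesLE (fun n => ext b n * fp n), Finset.sum_filter]
  unfold hN
  refine Finset.sum_congr rfl fun n _ => ?_
  split_ifs with hn
  · rfl
  · unfold Pool.Agent.H305R2.fp
    rw [if_neg hn, mul_zero]

/-- the sums of `(tr(p) - k) / p` -/
theorem trace_iff {b : Nat.Primes → ℝ} {tr : Nat.Primes → ℂ} (T : Finset Nat.Primes)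
    (h : ∀ p, p ∉ T → tr p = b p) (k : ℤ) :
    (∃ c : ℂ, Tendsto (fun N : ℕ => ∑ p ∈ primesLE N, (tr p - k) / ((p : ℕ) : ℂ)) atTop (𝓝 c)) ↔
    ∃ c : ℝ, Tendsto (fun N : ℕ => hN b N - k * Real.log (Real.log N)) atTop (𝓝 c) := by
  -- the difference
  have hd : ∃ c0 : ℂ, Tendsto (fun N : ℕ => ∑ p ∈ primesLE N, (tr p - k) / ((p : ℕ) : ℂ) -
      ((hN b N - k * Real.log (Real.log N) : ℝ) : ℂ)) atTop (𝓝 c0) := by
    have h1 : Tendsto (fun N : ℕ => ((k * (∑ n ∈ Finset.range (N + 1), fp n -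
        Real.log (Real.log N)) : ℝ) : ℂ)) atTop
        (𝓝 ((k * (Real.eulerMascheroniConstant - KK) : ℝ) : ℂ)) :=
      (Complex.continuous_ofReal.tendsto _).comp (mertens_two.const_mul (k : ℝ))
    refine ⟨∑ p ∈ T, (tr p - b p) / ((p : ℕ) : ℂ) - ((k * (Real.eulerMascheroniConstant - KK) : ℝ) : ℂ),
      (h1.const_sub _).congr' ?_⟩
    filter_upwards [primesLE_tendsto.eventually_ge_atTop T] with N hN'
    have h2 : ∑ p ∈ T, (tr p - b p) / ((p : ℕ) : ℂ) =
        ∑ p ∈ primesLE N, (tr p - b p) / ((p : ℕ) : ℂ) := by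
      refine Finset.sum_subset hN' fun p _ hp => ?_
      rw [h p hp, sub_self, zero_div]
    have h3 : ((hN b N : ℝ) : ℂ) = ∑ p ∈ primesLE N, (b p : ℂ) / ((p : ℕ) : ℂ) := by
      rw [hN_eq]
      push_cast
      rfl
    have h4 : ((∑ n ∈ Finset.range (N + 1), fp n : ℝ) : ℂ) =
        ∑ p ∈ primesLE N, (1 : ℂ) / ((p : ℕ) : ℂ) := by
      have h5 : ∑ n ∈ Finset.range (N + 1), fp n = ∑ p ∈ primesLE N, fp p := by
        rw [sum_primesLE fp, Finset.sum_filter]
        refine Finset.sum_congr rfl fun n _ => ?_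
        split_ifs with hn
        · rfl
        · unfold Pool.Agent.H305R2.fp
          rw [if_neg hn]
      rw [h5, Complex.ofReal_sum]
      refine Finset.sum_congr rfl fun p _ => ?_
      unfold Pool.Agent.H305R2.fp
      rw [if_pos p.2]
      push_cast
      rfl
    rw [h2]
    push_cast
    rw [h3]
    have h6 : ∑ p ∈ primesLE N, (tr p - k) / ((p : ℕ) : ℂ) =
        ∑ p ∈ primesLE N, (tr p - b p) / ((p : ℕ) : ℂ) + ∑ p ∈ primesLE N, (b p : ℂ) / ((p : ℕ) : ℂ) -
        k * ∑ p ∈ primesLE N, (1 : ℂ) / ((p : ℕ) : ℂ) := by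
      rw [Finset.mul_sum, ← Finset.sum_add_distrib, ← Finset.sum_sub_distrib]
      exact Finset.sum_congr rfl fun p _ => by ring
    rw [h6, ← h4]
    push_cast
    ring
  obtain ⟨c0, hc0⟩ := hd
  constructor
  · rintro ⟨c, hc⟩
    have h1 := hc.sub hc0
    simp only [sub_sub_cancel] at h1
    exact ⟨_, ((Complex.continuous_re.tendsto _).comp h1).congr fun N => Complex.ofReal_re _⟩
  · rintro ⟨c, hc⟩
    have h1 := hc0.add ((Complex.continuous_ofReal.tendsto _).comp hc)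
    refine ⟨_, h1.congr fun N => ?_⟩
    simp only [Function.comp_apply]
    ring

end

end Pool.Agent.D0H93.TM
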