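import Pool.Agent.TH941.Half
import Pool.Agent.H305R2.MertensE

/-! Prime sums: Tauberian theorem for `∑ c(p) p^{-w}`, `|c(p)| ≤ P/p`, and the constants of Mertens. -/

set_option autoImplicit false

namespace Pool.Agent.D0H93.TM

open Filter Topology MeasureTheory Set
open Pool.Agent.W263.BSD (stp stp_meas stp_LInt stp_hasSum stp_abs lap LInt tauber_limit
  bounded_of_slow slow_of_doubling)
open Pool.Agent.TH941 (PS)
open Pool.Agent.H305R2 (fp kk fp_nonneg tendsto_tsum_kk log_zeta_eq mertens_three summable_kk)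

section

variable {c : ℕ → ℝ} {P : ℝ}

theorem ps_locally (hc : PS c P) (U : ℝ) : ∃ B0 : ℝ, ∀ u, 0 < u → u ≤ U → |stp c u| ≤ B0 := by
  set K : ℝ := ∑' n : ℕ, |c n| * (n : ℝ) ^ (-(1 : ℝ)) with hK
  have hK0 : 0 ≤ K := tsum_nonneg fun n => by positivity
  refine ⟨K * Real.exp (1 * U), fun u _ h => ?_⟩
  refine (stp_abs hc.zero (hc.summable one_pos) zero_le_one u).trans ?_
  exact mul_le_mul_of_nonneg_left (Real.exp_le_exp.mpr (by linarith)) hK0

theorem ps_double (hc : PS c P) : ∃ u0 : ℝ, 2 ≤ u0 ∧ ∀ u v : ℝ, u0 ≤ u → u ≤ v →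
    stp c v ≤ stp c u + (3 * (P * Real.log 2 + 1)) * √(v / u) := by
  obtain ⟨u0, h2, h⟩ := hc.slow1 one_pos
  refine ⟨u0, h2, ?_⟩
  have hP := hc.pos
  have hl := Real.log_nonneg (show (1 : ℝ) ≤ 2 by norm_num)
  refine slow_of_doubling (by positivity) (by linarith) fun u v h1 h3 h4 => ?_
  have h5 := h u v h1 h3
  have hu : 0 < u := by linarith
  have h6 : Real.log (v / u) ≤ Real.log 2 :=
    Real.log_le_log (div_pos (by linarith) hu) ((div_le_iff₀ hu).mpr h4)
  have h7 := mul_le_mul_of_nonneg_left h6 hP.le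
  have h8 := (abs_le.mp h5).2
  linarith

theorem ps_abs_le (hc : PS c P) {δ w : ℝ} (hδ : 0 < δ) (h : δ ≤ w) :
    |∑' n : ℕ, c n * (n : ℝ) ^ (-w)| ≤ ∑' n : ℕ, |c n| * (n : ℝ) ^ (-δ) := by
  have hle : ∀ n : ℕ, ‖c n * (n : ℝ) ^ (-w)‖ ≤ |c n| * (n : ℝ) ^ (-δ) := by
    intro n
    rw [norm_mul, Real.norm_eq_abs]
    rcases Nat.eq_zero_or_pos n with rfl | hn
    · rw [hc.zero]; simp
    · have hn' : (1 : ℝ) ≤ n := by exact_mod_cast hn
      rw [Real.norm_of_nonneg (by positivity)]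
      exact mul_le_mul_of_nonneg_left (Real.rpow_le_rpow_of_exponent_le hn' (by linarith))
        (abs_nonneg _)
  exact tsum_of_norm_bounded (hc.summable hδ).hasSum hle

theorem ps_bounded (hc : PS c P) {C0 : ℝ}
    (h : Tendsto (fun w : ℝ => ∑' n : ℕ, c n * (n : ℝ) ^ (-w)) (𝓝[>] 0) (𝓝 C0)) :
    ∃ M : ℝ, ∀ u, 0 < u → |stp c u| ≤ M := by
  obtain ⟨u0, h2, hs⟩ := ps_double hc
  have hP := hc.pos
  have hl := Real.log_nonneg (show (1 : ℝ) ≤ 2 by norm_num)
  have h1 : ∀ᶠ w : ℝ in 𝓝[>] 0, |∑' n : ℕ, c n * (n : ℝ) ^ (-w)| < |C0| + 1 :=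
    h.abs.eventually_lt_const (by linarith)
  obtain ⟨δ, hδ, hδ'⟩ := mem_nhdsGT_iff_exists_Ioo_subset.mp h1
  have hδ0 : (0 : ℝ) < δ := hδ
  refine bounded_of_slow (f := stp c) (u0 := u0) (L := 3 * (P * Real.log 2 + 1))
    (B := (|C0| + 1) + ∑' n : ℕ, |c n| * (n : ℝ) ^ (-δ))
    (fun w hw => stp_LInt hc.zero (fun _ h => hc.summable h) hw)
    (fun w hw _ => ?_) (by linarith) (by positivity) hs (ps_locally hc)
  rw [← (stp_hasSum hc.zero (fun _ h => hc.summable h) hw).tsum_eq]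
  have hnn : 0 ≤ ∑' n : ℕ, |c n| * (n : ℝ) ^ (-δ) := tsum_nonneg fun n => by positivity
  rcases lt_or_ge w δ with h3 | h3
  · have : |∑' n : ℕ, c n * (n : ℝ) ^ (-w)| < |C0| + 1 := hδ' ⟨hw, h3⟩
    linarith
  · have := ps_abs_le hc hδ0 h3
    have := abs_nonneg C0
    linarith

theorem stp_tendsto (hc : PS c P) {C0 : ℝ}
    (h : Tendsto (fun w : ℝ => ∑' n : ℕ, c n * (n : ℝ) ^ (-w)) (𝓝[>] 0) (𝓝 C0)) :
    Tendsto (stp c) atTop (𝓝 C0) := by
  obtain ⟨M, hM⟩ := ps_bounded hc h
  refine tauber_limit (stp_meas c) (fun w hw => stp_LInt hc.zero (fun _ h => hc.summable h) hw) hM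
    ?_ fun ε hε => ?_
  · refine h.congr' ?_
    filter_upwards [self_mem_nhdsWithin] with w hw
    exact (stp_hasSum hc.zero (fun _ h => hc.summable h) hw).tsum_eq
  · obtain ⟨u0, h2, h⟩ := hc.slow1 (show 0 < ε / 2 by positivity)
    have hP := hc.pos
    refine ⟨ε / (2 * P), by positivity, u0, fun u v h3 h4 h5 => ?_⟩
    have hu : 0 < u := by linarith
    have h6 := h u v h3 h4
    have h9 : P * Real.log (v / u) ≤ ε / 2 := by
      have e1 : v / u ≤ 1 + ε / (2 * P) := by rw [div_le_iff₀ hu]; exact h5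
      have e2 : 0 < v / u := div_pos (by linarith) hu
      have e3 := Real.log_le_sub_one_of_pos e2
      have e4 : Real.log (v / u) ≤ ε / (2 * P) := by linarith
      refine (mul_le_mul_of_nonneg_left e4 hP.le).trans (le_of_eq ?_)
      field_simp
    have h11 := abs_le.mp h6
    linarith

/-- Abelian theorem for Laplace transforms -/
theorem abel_lap {f : ℝ → ℝ} (hf : Measurable f) {M : ℝ} (hM : ∀ u, 0 < u → |f u| ≤ M) {C0 : ℝ}
    (h : Tendsto f atTop (𝓝 C0)) : Tendsto (fun w : ℝ => w * lap f w) (𝓝[>] 0) (𝓝 C0) := by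
  have e : ∀ w : ℝ, 0 < w → w * lap f w = ∫ t in Ioi (0 : ℝ), f (t / w) * Real.exp (-t) := by
    intro w hw
    have h1 := integral_comp_mul_left_Ioi (fun t => f (t / w) * Real.exp (-t)) 0 hw
    rw [mul_zero, smul_eq_mul] at h1
    have h2 : lap f w = ∫ x in Ioi (0 : ℝ), f (w * x / w) * Real.exp (-(w * x)) := by
      unfold Pool.Agent.W263.BSD.lap
      refine setIntegral_congr_fun measurableSet_Ioi fun x _ => ?_
      rw [mul_div_cancel_left₀ _ hw.ne']
    rw [h2, h1]
    field_simp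
  have hexp : IntegrableOn (fun t : ℝ => Real.exp (-t)) (Ioi 0) := integrableOn_exp_neg_Ioi 0
  have h3 := tendsto_integral_filter_of_dominated_convergence (μ := volume.restrict (Ioi (0 : ℝ)))
    (l := 𝓝[>] (0 : ℝ)) (F := fun (w : ℝ) (t : ℝ) => f (t / w) * Real.exp (-t))
    (f := fun t => C0 * Real.exp (-t)) (fun t : ℝ => M * Real.exp (-t)) ?_ ?_ (hexp.const_mul M) ?_
  · rw [integral_const_mul, integral_exp_neg_Ioi, neg_zero, Real.exp_zero, mul_one] at h3
    refine h3.congr' ?_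
    filter_upwards [self_mem_nhdsWithin] with w hw
    exact (e w hw).symm
  · filter_upwards with w
    exact (((hf.comp (measurable_id.div_const w)).mul (by fun_prop)).aestronglyMeasurable)
  · filter_upwards [self_mem_nhdsWithin] with w hw
    have hw0 : (0 : ℝ) < w := hw
    rw [ae_restrict_iff' measurableSet_Ioi]
    refine Eventually.of_forall fun t ht => ?_
    have ht0 : (0 : ℝ) < t := ht
    rw [norm_mul, Real.norm_of_nonneg (Real.exp_pos _).le, Real.norm_eq_abs]
    exact mul_le_mul_of_nonneg_right (hM _ (div_pos ht0 hw0)) (Real.exp_pos _).le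
  · rw [ae_restrict_iff' measurableSet_Ioi]
    refine Eventually.of_forall fun t ht => ?_
    have ht0 : (0 : ℝ) < t := ht
    have h1 : Tendsto (fun w : ℝ => t / w) (𝓝[>] 0) atTop := by
      have := (tendsto_inv_nhdsGT_zero (𝕜 := ℝ)).const_mul_atTop ht0
      refine this.congr fun d => ?_
      rw [div_eq_mul_inv]
    exact (h.comp h1).mul_const _

theorem dirichlet_tendsto (hc : PS c P) {C0 : ℝ} (h : Tendsto (stp c) atTop (𝓝 C0)) :
    Tendsto (fun w : ℝ => ∑' n : ℕ, c n * (n : ℝ) ^ (-w)) (𝓝[>] 0) (𝓝 C0) := by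
  have h1 : ∀ᶠ u : ℝ in atTop, |stp c u| < |C0| + 1 := h.abs.eventually_lt_const (by linarith)
  obtain ⟨U, hU⟩ := eventually_atTop.mp h1
  obtain ⟨B0, hB0⟩ := ps_locally hc U
  have hM : ∀ u, 0 < u → |stp c u| ≤ max B0 (|C0| + 1) := by
    intro u hu
    rcases le_total u U with h2 | h2
    · exact (hB0 u hu h2).trans (le_max_left _ _)
    · exact (hU u h2).le.trans (le_max_right _ _)
  refine (abel_lap (stp_meas c) hM h).congr' ?_
  filter_upwards [self_mem_nhdsWithin] with w hw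
  exact (stp_hasSum hc.zero (fun _ h => hc.summable h) hw).tsum_eq.symm

theorem stp_nat_iff {C0 : ℝ} : Tendsto (stp c) atTop (𝓝 C0) ↔
    Tendsto (fun N : ℕ => ∑ n ∈ Finset.range (N + 1), c n) atTop (𝓝 C0) := by
  constructor
  · intro h
    have h1 : Tendsto (fun N : ℕ => Real.log (N : ℝ)) atTop atTop :=
      Real.tendsto_log_atTop.comp tendsto_natCast_atTop_atTop
    refine (h.comp h1).congr' ?_
    filter_upwards [eventually_ge_atTop 1] with N hN
    have hN' : (0 : ℝ) < N := by exact_mod_cast hN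
    simp only [Function.comp_apply]
    unfold Pool.Agent.W263.BSD.stp
    rw [Real.exp_log hN', Nat.floor_natCast]
  · intro h
    have h1 : Tendsto (fun u : ℝ => ⌊Real.exp u⌋₊) atTop atTop :=
      tendsto_nat_floor_atTop.comp Real.tendsto_exp_atTop
    exact h.comp h1

/-- Tauberian and Abelian theorem together -/
theorem tauber_iff (hc : PS c P) {C0 : ℝ} :
    Tendsto (fun w : ℝ => ∑' n : ℕ, c n * (n : ℝ) ^ (-w)) (𝓝[>] 0) (𝓝 C0) ↔
    Tendsto (fun N : ℕ => ∑ n ∈ Finset.range (N + 1), c n) atTop (𝓝 C0) :=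
  ⟨fun h => stp_nat_iff.mp (stp_tendsto hc h), fun h => dirichlet_tendsto hc (stp_nat_iff.mpr h)⟩

end

/-- the constant -/
noncomputable def KK : ℝ := ∑' n, kk 0 n

theorem prime_zeta : Tendsto (fun w : ℝ => ∑' n : ℕ, fp n * (n : ℝ) ^ (-w) + Real.log w) (𝓝[>] 0)
    (𝓝 (-KK)) := by
  have hlog : Tendsto (fun d : ℝ => Real.log (riemannZeta ((1 + d : ℝ) : ℂ)).re + Real.log d) (𝓝[>] 0)
      (𝓝 0) := by
    have h1 := log_riemannZeta_add_log_sub_isLittleO_ofReal.tendsto_div_nhds_zero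
    simp only [div_one] at h1
    have h2 : Tendsto (fun d : ℝ => 1 + d) (𝓝[>] 0) (𝓝[>] 1) := by
      refine tendsto_nhdsWithin_iff.2 ⟨?_, ?_⟩
      · have : Tendsto (fun d : ℝ => 1 + d) (𝓝 0) (𝓝 (1 + 0)) := by
          exact (continuous_const.add continuous_id).tendsto 0
        rw [add_zero] at this
        exact this.mono_left nhdsWithin_le_nhds
      · filter_upwards [self_mem_nhdsWithin] with d hd
        have hd : 0 < d := hd
        simp only [Set.mem_Ioi]
        linarith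
    have h3 := h1.comp h2
    refine h3.congr fun d => ?_
    simp only [Function.comp, add_sub_cancel_left]
  have h := hlog.sub tendsto_tsum_kk
  rw [zero_sub] at h
  refine h.congr' ?_
  filter_upwards [self_mem_nhdsWithin] with d hd
  rw [log_zeta_eq hd]
  ring

theorem mertens_two : Tendsto (fun N : ℕ => ∑ n ∈ Finset.range (N + 1), fp n -
    Real.log (Real.log N)) atTop (𝓝 (Real.eulerMascheroniConstant - KK)) := by
  have h1 := mertens_three.log (Real.exp_pos _).ne'
  rw [Real.log_exp] at h1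
  have h2 : Tendsto (fun N : ℕ => ∑ n ∈ Finset.range (N + 1), kk 0 n) atTop (𝓝 KK) :=
    ((summable_kk le_rfl).hasSum.tendsto_sum_nat).comp (tendsto_add_atTop_nat 1)
  refine (h1.sub h2).congr' ?_
  filter_upwards [eventually_ge_atTop 2] with N hN
  have hN2 : (2 : ℝ) ≤ N := by exact_mod_cast hN
  have hlogN : 0 < Real.log N := Real.log_pos (by linarith)
  have hpos : ∀ p ∈ (Finset.Icc 1 N).filter Nat.Prime, (0 : ℝ) < (1 - (p : ℝ)⁻¹)⁻¹ := by
    intro p hp
    have hp2 : (2 : ℝ) ≤ p := by exact_mod_cast (Finset.mem_filter.mp hp).2.two_le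
    have : (p : ℝ)⁻¹ ≤ 2⁻¹ := inv_anti₀ (by norm_num) hp2
    exact inv_pos.mpr (by norm_num at this ⊢; linarith)
  rw [Real.log_div (Finset.prod_pos hpos).ne' hlogN.ne', Real.log_prod (fun p hp => (hpos p hp).ne')]
  have h3 : ∑ p ∈ (Finset.Icc 1 N).filter Nat.Prime, Real.log (1 - (p : ℝ)⁻¹)⁻¹ =
      ∑ n ∈ Finset.range (N + 1), (fp n + kk 0 n) := by
    have h4 : (Finset.Icc 1 N).filter Nat.Prime = (Finset.range (N + 1)).filter Nat.Prime := by
      ext p
      simp only [Finset.mem_filter, Finset.mem_Icc, Finset.mem_range]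
      constructor
      · rintro ⟨⟨_, h⟩, hp⟩; exact ⟨by omega, hp⟩
      · rintro ⟨h, hp⟩; exact ⟨⟨hp.one_lt.le, by omega⟩, hp⟩
    rw [h4, Finset.sum_filter]
    refine Finset.sum_congr rfl fun n _ => ?_
    unfold Pool.Agent.H305R2.fp Pool.Agent.H305R2.kk
    split_ifs with hn
    · rw [add_zero, Real.rpow_neg_one, Real.log_inv]
      ring
    · ring
  rw [h3, Finset.sum_add_distrib]
  ring

section

variable {b : ℕ → ℝ} {M : ℝ}

/-- the sequence `(b(p) - k) / p` -/
theorem ps_sub (hb : ∀ n, |b n| ≤ M) (k : ℝ) : PS (fun n => (b n - k) * fp n) (M + |k| + 1) where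
  pos := by have := (abs_nonneg _).trans (hb 0); have := abs_nonneg k; linarith
  le := fun n => by
    have h0 := (abs_nonneg _).trans (hb 0)
    have h1 : |b n - k| ≤ M + |k| + 1 := (abs_sub _ _).trans (by have := hb n; linarith)
    unfold Pool.Agent.H305R2.fp
    split_ifs with hn
    · rw [abs_mul, abs_of_nonneg (show (0 : ℝ) ≤ 1 / n by positivity), mul_one_div]
      exact div_le_div_of_nonneg_right h1 (by positivity)
    · rw [mul_zero, abs_zero]
      have := abs_nonneg k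
      positivity
  np := fun n hn => by
    unfold Pool.Agent.H305R2.fp
    rw [if_neg hn, mul_zero]

theorem fp_ps : PS fp 1 where
  pos := one_pos
  le := fun n => by
    unfold Pool.Agent.H305R2.fp
    split_ifs
    · rw [abs_of_nonneg (by positivity)]
    · rw [abs_zero]; positivity
  np := fun n hn => by
    unfold Pool.Agent.H305R2.fp
    rw [if_neg hn]

theorem fp_summable {w : ℝ} (hw : 0 < w) : Summable fun n : ℕ => fp n * (n : ℝ) ^ (-w) := by
  refine (fp_ps.summable hw).congr fun n => ?_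
  rw [abs_of_nonneg (fp_nonneg n)]

theorem bfp_summable (hb : ∀ n, |b n| ≤ M) {w : ℝ} (hw : 0 < w) :
    Summable fun n : ℕ => b n * fp n * (n : ℝ) ^ (-w) := by
  refine Summable.of_norm_bounded ((fp_summable hw).mul_left M) fun n => ?_
  have h1 : (0 : ℝ) ≤ (n : ℝ) ^ (-w) := by positivity
  rw [norm_mul, norm_mul, Real.norm_of_nonneg (fp_nonneg n), Real.norm_of_nonneg h1,
    Real.norm_eq_abs, ← mul_assoc]
  exact mul_le_mul_of_nonneg_right (mul_le_mul_of_nonneg_right (hb n) (fp_nonneg n)) h1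

/-- **The Tauberian theorem with the constants of Mertens.** -/
theorem edge_iff (hb : ∀ n, |b n| ≤ M) (k C1 : ℝ) :
    Tendsto (fun w : ℝ => ∑' n : ℕ, b n * fp n * (n : ℝ) ^ (-w) + k * Real.log w) (𝓝[>] 0) (𝓝 C1) ↔
    Tendsto (fun N : ℕ => ∑ n ∈ Finset.range (N + 1), b n * fp n - k * Real.log (Real.log N)) atTop
      (𝓝 (C1 + k * Real.eulerMascheroniConstant)) := by
  have h := tauber_iff (ps_sub hb k) (C0 := C1 + k * KK)
  have e1 : ∀ᶠ w : ℝ in 𝓝[>] 0, ∑' n : ℕ, (b n - k) * fp n * (n : ℝ) ^ (-w) +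
      k * (∑' n : ℕ, fp n * (n : ℝ) ^ (-w) + Real.log w) =
      ∑' n : ℕ, b n * fp n * (n : ℝ) ^ (-w) + k * Real.log w := by
    filter_upwards [self_mem_nhdsWithin] with w hw
    have hw0 : (0 : ℝ) < w := hw
    have h1 : ∑' n : ℕ, (b n - k) * fp n * (n : ℝ) ^ (-w) =
        ∑' n : ℕ, b n * fp n * (n : ℝ) ^ (-w) - k * ∑' n : ℕ, fp n * (n : ℝ) ^ (-w) := by
      rw [← tsum_mul_left, ← (bfp_summable hb hw0).tsum_sub ((fp_summable hw0).mul_left k)]
      exact tsum_congr fun n => by ring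
    rw [h1]
    ring
  have e2 : ∀ N : ℕ, ∑ n ∈ Finset.range (N + 1), (b n - k) * fp n +
      k * (∑ n ∈ Finset.range (N + 1), fp n - Real.log (Real.log N)) =
      ∑ n ∈ Finset.range (N + 1), b n * fp n - k * Real.log (Real.log N) := by
    intro N
    have : ∑ n ∈ Finset.range (N + 1), (b n - k) * fp n =
        ∑ n ∈ Finset.range (N + 1), b n * fp n - k * ∑ n ∈ Finset.range (N + 1), fp n := by
      rw [Finset.mul_sum, ← Finset.sum_sub_distrib]
      exact Finset.sum_congr rfl fun n _ => by ring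
    rw [this]
    ring
  have hz := prime_zeta.const_mul k
  have hm := mertens_two.const_mul k
  constructor
  · intro h1
    have h2 : Tendsto (fun w : ℝ => ∑' n : ℕ, (b n - k) * fp n * (n : ℝ) ^ (-w)) (𝓝[>] 0)
        (𝓝 (C1 + k * KK)) := by
      have h3 := h1.sub hz
      have e3 : C1 - k * (-KK) = C1 + k * KK := by ring
      rw [e3] at h3
      refine h3.congr' ?_
      filter_upwards [e1] with w hw
      linarith
    have h4 := (h.mp h2).add hm
    have e3 : C1 + k * KK + k * (Real.eulerMascheroniConstant - KK) =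
      C1 + k * Real.eulerMascheroniConstant := by ring
    rw [e3] at h4
    exact h4.congr e2
  · intro h1
    have h2 : Tendsto (fun N : ℕ => ∑ n ∈ Finset.range (N + 1), (b n - k) * fp n) atTop
        (𝓝 (C1 + k * KK)) := by
      have h3 := h1.sub hm
      have e3 : C1 + k * Real.eulerMascheroniConstant - k * (Real.eulerMascheroniConstant - KK) =
        C1 + k * KK := by ring
      rw [e3] at h3
      refine h3.congr fun N => ?_
      rw [← e2 N]
      ring
    have h4 := (h.mpr h2).add hz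
    have e3 : C1 + k * KK + k * (-KK) = C1 := by ring
    rw [e3] at h4
    exact h4.congr' e1

end

end Pool.Agent.D0H93.TM
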