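import Pool.Agent.D0H93.TM.Local

/-! Numbers of points and the products over the primes. -/

set_option autoImplicit false

namespace Pool.Agent.D0H93.TM

open Filter Topology Polynomial ComplexConjugate
open Pool.Agent.Y149.PK (Variety IsEuler)
open Pool.Agent.Y149.CM (cone)
open Pool.Agent.H305R2 (fp fp_nonneg)

/-- real products -/
theorem real_iff {r b e : Nat.Primes → ℝ} (T : Finset Nat.Primes)
    (hr : ∀ p, p ∉ T → r p = Real.exp (b p / ((p : ℕ) : ℝ) + e p)) (he : Summable e) (k : ℤ) :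
    (∃ c : ℝ, 0 < c ∧ Tendsto (fun N : ℕ => (∏ p ∈ primesLE N \ T, r p) / Real.log N ^ k) atTop
      (𝓝 c)) ↔
    ∃ c : ℝ, Tendsto (fun N : ℕ => hN b N - k * Real.log (Real.log N)) atTop (𝓝 c) := by
  classical
  set b' : Nat.Primes → ℝ := fun p => if p ∈ T then 0 else b p with hb'
  set e' : Nat.Primes → ℝ := fun p => if p ∈ T then 0 else e p with he'
  have hse : Summable e' := by
    refine Summable.of_norm_bounded he.abs fun p => ?_
    rw [he', Real.norm_eq_abs]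
    simp only
    split_ifs
    · rw [abs_zero]; exact abs_nonneg _
    · exact le_rfl
  rw [hN_conv T (b := b) (b' := b') fun p hp => by rw [hb']; simp only; rw [if_neg hp]]
  have hE : Tendsto (fun N : ℕ => ∑ p ∈ primesLE N, e' p) atTop (𝓝 (∑' p, e' p)) :=
    hse.hasSum.comp primesLE_tendsto
  have hP : ∀ᶠ N : ℕ in atTop, (∏ p ∈ primesLE N \ T, r p) / Real.log N ^ k =
      Real.exp ((hN b' N - k * Real.log (Real.log N)) + ∑ p ∈ primesLE N, e' p) := by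
    filter_upwards [eventually_ge_atTop 2] with N hN2
    have hN2' : (2 : ℝ) ≤ N := by exact_mod_cast hN2
    have hl : 0 < Real.log N := Real.log_pos (by linarith)
    have h2 : Real.log N ^ k = Real.exp (k * Real.log (Real.log N)) := by
      rw [mul_comm, Real.exp_mul, Real.exp_log hl, Real.rpow_intCast]
    have h3 : ∏ p ∈ primesLE N \ T, r p = Real.exp (hN b' N + ∑ p ∈ primesLE N, e' p) := by
      rw [hN_eq, ← Finset.sum_add_distrib, Real.exp_sum]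
      have h4 : ∀ p ∈ primesLE N, p ∉ primesLE N \ T →
          Real.exp (b' p / ((p : ℕ) : ℝ) + e' p) = 1 := by
        intro p hp hp2
        have hpT : p ∈ T := by
          by_contra hcon
          exact hp2 (Finset.mem_sdiff.mpr ⟨hp, hcon⟩)
        rw [hb', he']
        simp only
        rw [if_pos hpT, if_pos hpT, zero_div, zero_add, Real.exp_zero]
      rw [← Finset.prod_subset Finset.sdiff_subset h4]
      refine Finset.prod_congr rfl fun p hp => ?_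
      have hpT := (Finset.mem_sdiff.mp hp).2
      rw [hr p hpT, hb', he']
      simp only
      rw [if_neg hpT, if_neg hpT]
    rw [h2, h3, ← Real.exp_sub]
    congr 1
    ring
  constructor
  · rintro ⟨c, hc, h1⟩
    have h2 := (h1.congr' hP).log hc.ne'
    simp only [Real.log_exp] at h2
    have h3 := h2.sub hE
    simp only [add_sub_cancel_right] at h3
    exact ⟨_, h3⟩
  · rintro ⟨c, hc⟩
    have h1 : Tendsto (fun N : ℕ => Real.exp ((hN b' N - k * Real.log (Real.log N)) +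
        ∑ p ∈ primesLE N, e' p)) atTop (𝓝 (Real.exp (c + ∑' p, e' p))) :=
      (Real.continuous_exp.tendsto _).comp (hc.add hE)
    exact ⟨_, Real.exp_pos _, h1.congr' (hP.mono fun _ h => h.symm)⟩

theorem log_bd {w : ℝ} (h : |w| ≤ 1 / 2) : |Real.log (1 + w) - w| ≤ 2 * w ^ 2 := by
  have h1 := abs_le.mp h
  have h2 : 0 < 1 + w := by linarith
  have h3 := Real.log_le_sub_one_of_pos h2
  have h4 := Real.one_sub_inv_le_log_of_pos h2
  have h5 : 1 - (1 + w)⁻¹ = w - w ^ 2 * (1 + w)⁻¹ := by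
    field_simp
    ring
  have h6 : (1 + w)⁻¹ ≤ 2 := by
    rw [inv_le_comm₀ h2 (by norm_num)]
    linarith
  have h7 : w ^ 2 * (1 + w)⁻¹ ≤ w ^ 2 * 2 := mul_le_mul_of_nonneg_left h6 (by positivity)
  have h8 : 0 ≤ w ^ 2 := by positivity
  rw [abs_le]
  constructor <;> linarith

theorem ratio_bd {x y q : ℝ} (hx : |x| ≤ 1 / 8) (hy : |y| ≤ 1 / 8) :
    |Real.log ((1 + x) / (1 + y)) - q| ≤ 8 * |x - y| ^ 2 + 2 * (|x - y| * |y|) + |x - y - q| := by
  have h1 := abs_le.mp hx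
  have h2 := abs_le.mp hy
  have hy1 : 0 < 1 + y := by linarith
  set w := (x - y) / (1 + y) with hw
  have e1 : (1 + x) / (1 + y) = 1 + w := by
    rw [hw]
    field_simp
    ring
  have h3 : |w| ≤ 2 * |x - y| := by
    rw [hw, abs_div, abs_of_pos hy1, div_le_iff₀ hy1]
    have := abs_nonneg (x - y)
    nlinarith
  have h4 : |x - y| ≤ 1 / 4 := (abs_sub _ _).trans (by linarith)
  have h5 := log_bd (w := w) (by linarith)
  have h6 : |w - (x - y)| ≤ 2 * (|x - y| * |y|) := by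
    have e2 : w - (x - y) = -(w * y) := by
      rw [hw]
      field_simp
      ring
    rw [e2, abs_neg, abs_mul]
    have := mul_le_mul_of_nonneg_right h3 (abs_nonneg y)
    linarith
  have h7 : w ^ 2 ≤ 4 * |x - y| ^ 2 := by
    rw [← sq_abs w]
    have := pow_le_pow_left₀ (abs_nonneg w) h3 2
    linarith
  rw [e1]
  have e3 : Real.log (1 + w) - q = (Real.log (1 + w) - w) + (w - (x - y)) + (x - y - q) := by ring
  rw [e3]
  refine (abs_add_three _ _ _).trans ?_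
  linarith

theorem tendsto_prime (s : ℝ) (hs : 0 < s) :
    Tendsto (fun p : Nat.Primes => ((p : ℕ) : ℝ) ^ (-s)) cofinite (𝓝 0) := by
  have h1 : Tendsto (fun p : Nat.Primes => (p : ℕ)) cofinite atTop := by
    rw [← Nat.cofinite_eq_atTop]
    exact Subtype.val_injective.tendsto_cofinite
  exact (tendsto_rpow_neg_atTop hs).comp (tendsto_natCast_atTop_atTop.comp h1)

theorem ratio_exp {x y b : Nat.Primes → ℝ} {C : ℝ}
    (hx : ∀ᶠ p : Nat.Primes in cofinite, |x p| ≤ C * ((p : ℕ) : ℝ) ^ (-(1 / 2) : ℝ))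
    (hy : ∀ᶠ p : Nat.Primes in cofinite, |y p| ≤ C * ((p : ℕ) : ℝ) ^ (-(1 / 2) : ℝ))
    (hb : ∀ᶠ p : Nat.Primes in cofinite, |b p| ≤ C)
    (hxy : ∀ᶠ p : Nat.Primes in cofinite,
      |x p - y p - b p / ((p : ℕ) : ℝ)| ≤ C * ((p : ℕ) : ℝ) ^ (-(3 / 2) : ℝ)) :
    ∃ T0 : Finset Nat.Primes, ∀ T, T0 ⊆ T → ∃ e : Nat.Primes → ℝ, Summable e ∧
      ∀ p, p ∉ T → 0 < 1 + y p ∧ (1 + x p) / (1 + y p) = Real.exp (b p / ((p : ℕ) : ℝ) + e p) := by
  classical
  have hs : ∀ᶠ p : Nat.Primes in cofinite, C * ((p : ℕ) : ℝ) ^ (-(1 / 2) : ℝ) ≤ 1 / 8 := by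
    have h1 := (tendsto_prime (1 / 2) (by norm_num)).const_mul C
    rw [mul_zero] at h1
    exact (h1.eventually_lt_const (show (0 : ℝ) < 1 / 8 by norm_num)).mono fun _ h => h.le
  have hall := (((hx.and hy).and hb).and hxy).and hs
  rw [eventually_cofinite] at hall
  refine ⟨hall.toFinset, fun T hT => ?_⟩
  have hgood : ∀ p, p ∉ T → (((|x p| ≤ C * ((p : ℕ) : ℝ) ^ (-(1 / 2) : ℝ) ∧
      |y p| ≤ C * ((p : ℕ) : ℝ) ^ (-(1 / 2) : ℝ)) ∧ |b p| ≤ C) ∧
      |x p - y p - b p / ((p : ℕ) : ℝ)| ≤ C * ((p : ℕ) : ℝ) ^ (-(3 / 2) : ℝ)) ∧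
      C * ((p : ℕ) : ℝ) ^ (-(1 / 2) : ℝ) ≤ 1 / 8 := by
    intro p hp
    have h1 : p ∉ hall.toFinset := fun h => hp (hT h)
    rw [Set.Finite.mem_toFinset, Set.mem_ofPred_eq, not_not] at h1
    exact h1
  set e : Nat.Primes → ℝ := fun p => if p ∈ T then 0 else
    Real.log ((1 + x p) / (1 + y p)) - b p / ((p : ℕ) : ℝ) with he
  have hbound : ∀ p, p ∉ T → |e p| ≤ (32 * C ^ 2 + 4 * C ^ 2 + C) * ((p : ℕ) : ℝ) ^ (-(3 / 2) : ℝ) := by
    intro p hp
    obtain ⟨⟨⟨⟨h1, h2⟩, h3⟩, h4⟩, h5⟩ := hgood p hp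
    have hp0 := p_pos p
    have hp2 := two_le p
    have hC : 0 ≤ C := (abs_nonneg _).trans h3
    have ha : 0 < ((p : ℕ) : ℝ) ^ (-(1 / 2) : ℝ) := Real.rpow_pos_of_pos hp0 _
    have hc : 0 < ((p : ℕ) : ℝ) ^ (-(3 / 2) : ℝ) := Real.rpow_pos_of_pos hp0 _
    have e1 : ((p : ℕ) : ℝ) ^ (-(3 / 2) : ℝ) = ((p : ℕ) : ℝ)⁻¹ * ((p : ℕ) : ℝ) ^ (-(1 / 2) : ℝ) := by
      rw [← Real.rpow_neg_one, ← Real.rpow_add hp0]
      norm_num
    have e2 : ((p : ℕ) : ℝ)⁻¹ ≤ ((p : ℕ) : ℝ) ^ (-(1 / 2) : ℝ) := by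
      rw [← Real.rpow_neg_one]
      exact Real.rpow_le_rpow_of_exponent_le (by linarith) (by norm_num)
    have e3 : ((p : ℕ) : ℝ) ^ (-(1 / 2) : ℝ) ≤ 1 :=
      Real.rpow_le_one_of_one_le_of_nonpos (by linarith) (by norm_num)
    have h6 : |x p - y p| ≤ 2 * C * ((p : ℕ) : ℝ)⁻¹ := by
      have h7 : |x p - y p| ≤ |x p - y p - b p / ((p : ℕ) : ℝ)| + |b p / ((p : ℕ) : ℝ)| := by
        have := abs_add_le (x p - y p - b p / ((p : ℕ) : ℝ)) (b p / ((p : ℕ) : ℝ))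
        rwa [sub_add_cancel] at this
      have h8 : |b p / ((p : ℕ) : ℝ)| ≤ C * ((p : ℕ) : ℝ)⁻¹ := by
        rw [abs_div, abs_of_pos hp0, div_eq_mul_inv]
        exact mul_le_mul_of_nonneg_right h3 (inv_pos.mpr hp0).le
      have h9 : C * ((p : ℕ) : ℝ) ^ (-(3 / 2) : ℝ) ≤ C * ((p : ℕ) : ℝ)⁻¹ := by
        rw [e1]
        have hi := (inv_pos.mpr hp0).le
        have := mul_le_mul_of_nonneg_left e3 hi
        rw [mul_one] at this
        exact mul_le_mul_of_nonneg_left this hC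
      linarith
    rw [he]
    simp only
    rw [if_neg hp]
    refine (ratio_bd (h1.trans h5) (h2.trans h5)).trans ?_
    have hi : 0 < ((p : ℕ) : ℝ)⁻¹ := inv_pos.mpr hp0
    have h7 : |x p - y p| ^ 2 ≤ 4 * C ^ 2 * ((p : ℕ) : ℝ) ^ (-(3 / 2) : ℝ) := by
      have h8 := pow_le_pow_left₀ (abs_nonneg _) h6 2
      refine h8.trans ?_
      rw [e1]
      have h9 : ((p : ℕ) : ℝ)⁻¹ * ((p : ℕ) : ℝ)⁻¹ ≤ ((p : ℕ) : ℝ)⁻¹ * ((p : ℕ) : ℝ) ^ (-(1 / 2) : ℝ) :=
        mul_le_mul_of_nonneg_left e2 hi.le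
      have h10 := mul_le_mul_of_nonneg_left h9 (show 0 ≤ 4 * C ^ 2 by positivity)
      nlinarith
    have h8 : |x p - y p| * |y p| ≤ 2 * C ^ 2 * ((p : ℕ) : ℝ) ^ (-(3 / 2) : ℝ) := by
      refine (mul_le_mul h6 h2 (abs_nonneg _) (by positivity)).trans (le_of_eq ?_)
      rw [e1]
      ring
    nlinarith
  refine ⟨e, ?_, fun p hp => ?_⟩
  · have hsum := Nat.Primes.summable_rpow.mpr (show (-(3 / 2) : ℝ) < -1 by norm_num)
    have hK : 0 ≤ 32 * C ^ 2 + 4 * C ^ 2 + |C| := by positivity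
    refine Summable.of_norm_bounded (hsum.mul_left (32 * C ^ 2 + 4 * C ^ 2 + |C|)) fun p => ?_
    have hc : 0 < ((p : ℕ) : ℝ) ^ (-(3 / 2) : ℝ) := Real.rpow_pos_of_pos (p_pos p) _
    by_cases hp : p ∈ T
    · rw [he]
      simp only
      rw [if_pos hp, norm_zero]
      positivity
    · rw [Real.norm_eq_abs]
      refine (hbound p hp).trans (mul_le_mul_of_nonneg_right ?_ hc.le)
      have := le_abs_self C
      linarith
  · obtain ⟨⟨⟨⟨h1, h2⟩, h3⟩, h4⟩, h5⟩ := hgood p hp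
    have h6 := abs_le.mp (h1.trans h5)
    have h7 := abs_le.mp (h2.trans h5)
    have h8 : 0 < 1 + y p := by linarith
    have h9 : 0 < (1 + x p) / (1 + y p) := div_pos (by linarith) h8
    refine ⟨h8, ?_⟩
    rw [he]
    simp only
    rw [if_neg hp, add_sub_cancel, Real.exp_log h9]

end Pool.Agent.D0H93.TM
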