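import Pool.Agent.D0H93.TM.Prime
import Pool.Agent.Helper923.HMertens

/-! The unconditional comparison of `∑ b(p) p^{-1-ε}` and `∑_{p ≤ e^{1/ε}} b(p)/p`. -/

set_option autoImplicit false

namespace Pool.Agent.D0H93.TM

open Filter Topology Set
open Pool.Agent.H305R2 (fp kk fp_nonneg)

theorem log_floor : Tendsto (fun ε : ℝ => ε * Real.log (⌊Real.exp (1 / ε)⌋₊ : ℝ)) (𝓝[>] 0) (𝓝 1) := by
  have h1 : Tendsto (fun ε : ℝ => 1 - ε * Real.log 2) (𝓝[>] 0) (𝓝 1) := by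
    have h2 : Continuous fun ε : ℝ => 1 - ε * Real.log 2 := by fun_prop
    have h3 := h2.tendsto 0
    simp only [zero_mul, sub_zero] at h3
    exact h3.mono_left nhdsWithin_le_nhds
  have hsm : ∀ᶠ ε : ℝ in 𝓝[>] 0, ε ≤ 1 :=
    (eventually_le_nhds (show (0 : ℝ) < 1 by norm_num)).filter_mono nhdsWithin_le_nhds
  refine tendsto_of_tendsto_of_tendsto_of_le_of_le' h1 tendsto_const_nhds ?_ ?_
  · filter_upwards [self_mem_nhdsWithin, hsm] with ε hε hε1
    have hε0 : (0 : ℝ) < ε := hε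
    have h2 : 2 ≤ Real.exp (1 / ε) := by
      have := Real.add_one_le_exp (1 / ε)
      have h3 : 1 ≤ 1 / ε := by rw [le_div_iff₀ hε0]; linarith
      linarith
    have h3 : Real.exp (1 / ε) / 2 ≤ (⌊Real.exp (1 / ε)⌋₊ : ℝ) := by
      have := Nat.sub_one_lt_floor (Real.exp (1 / ε))
      linarith
    have h4 := Real.log_le_log (by positivity) h3
    rw [Real.log_div (Real.exp_pos _).ne' (by norm_num), Real.log_exp] at h4
    have h5 := mul_le_mul_of_nonneg_left h4 hε0.le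
    have h6 : ε * (1 / ε - Real.log 2) = 1 - ε * Real.log 2 := by field_simp
    linarith
  · filter_upwards [self_mem_nhdsWithin] with ε hε
    have hε0 : (0 : ℝ) < ε := hε
    have h4 : Real.log (⌊Real.exp (1 / ε)⌋₊ : ℝ) ≤ 1 / ε := by
      rcases Nat.eq_zero_or_pos ⌊Real.exp (1 / ε)⌋₊ with h | h
      · rw [h]; simp; positivity
      · rw [Real.log_le_iff_le_exp (by exact_mod_cast h)]
        exact Nat.floor_le (Real.exp_pos _).le
    have h5 := mul_le_mul_of_nonneg_left h4 hε0.le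
    have h6 : ε * (1 / ε) = 1 := by field_simp
    linarith

theorem floor_tendsto : Tendsto (fun ε : ℝ => ⌊Real.exp (1 / ε)⌋₊) (𝓝[>] 0) atTop := by
  have h0 : Tendsto (fun ε : ℝ => 1 / ε) (𝓝[>] 0) atTop := by
    simp only [one_div]
    exact tendsto_inv_nhdsGT_zero
  exact tendsto_nat_floor_atTop.comp (Real.tendsto_exp_atTop.comp h0)

theorem loglog_floor : Tendsto (fun ε : ℝ => Real.log (Real.log (⌊Real.exp (1 / ε)⌋₊ : ℝ)) +
    Real.log ε) (𝓝[>] 0) (𝓝 0) := by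
  have h := log_floor.log one_ne_zero
  rw [Real.log_one] at h
  refine h.congr' ?_
  filter_upwards [self_mem_nhdsWithin, floor_tendsto.eventually_ge_atTop 2] with ε hε hN
  have hε0 : (0 : ℝ) < ε := hε
  have hN' : (2 : ℝ) ≤ (⌊Real.exp (1 / ε)⌋₊ : ℝ) := by exact_mod_cast hN
  have hl : 0 < Real.log (⌊Real.exp (1 / ε)⌋₊ : ℝ) := Real.log_pos (by linarith)
  rw [Real.log_mul hε0.ne' hl.ne']
  ring

theorem diff_bound : ∃ C : ℝ, ∀ᶠ ε : ℝ in 𝓝[>] 0,
    |∑' n : ℕ, fp n * (n : ℝ) ^ (-ε) - ∑ n ∈ Finset.range (⌊Real.exp (1 / ε)⌋₊ + 1), fp n| ≤ C := by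
  have h1 := (prime_zeta.sub (mertens_two.comp floor_tendsto)).sub loglog_floor
  refine ⟨|(-KK - (Real.eulerMascheroniConstant - KK) - 0)| + 1, ?_⟩
  filter_upwards [h1.abs.eventually_lt_const (lt_add_one _)] with ε hε
  refine le_of_eq_of_le ?_ hε.le
  congr 1
  simp only [Function.comp_apply]
  ring

theorem head_bound : ∃ C : ℝ, 0 ≤ C ∧ ∀ ε : ℝ, 0 < ε → ε ≤ 1 →
    ∑ n ∈ Finset.range (⌊Real.exp (1 / ε)⌋₊ + 1), fp n * (1 - (n : ℝ) ^ (-ε)) ≤ C := by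
  obtain ⟨C, hC⟩ := Pool.Agent.Helper923.HMertens.mertens_log
  refine ⟨1 + |C|, by positivity, fun ε hε hε1 => ?_⟩
  set N := ⌊Real.exp (1 / ε)⌋₊ with hN
  have hN1 : 1 ≤ N := by
    rw [hN]
    exact Nat.le_floor (by
      have := Real.add_one_le_exp (1 / ε)
      have h3 : 0 < 1 / ε := by positivity
      push_cast
      linarith)
  have hlogN : Real.log N ≤ 1 / ε := by
    rw [Real.log_le_iff_le_exp (by exact_mod_cast hN1)]
    exact Nat.floor_le (Real.exp_pos _).le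
  have h1 : ∑ n ∈ Finset.range (N + 1), fp n * (1 - (n : ℝ) ^ (-ε)) ≤
      ε * ∑ p ∈ (Finset.Icc 1 N).filter Nat.Prime, Real.log p / p := by
    have h4 : (Finset.Icc 1 N).filter Nat.Prime = (Finset.range (N + 1)).filter Nat.Prime := by
      ext p
      simp only [Finset.mem_filter, Finset.mem_Icc, Finset.mem_range]
      constructor
      · rintro ⟨⟨_, h⟩, hp⟩; exact ⟨by omega, hp⟩
      · rintro ⟨h, hp⟩; exact ⟨⟨hp.one_lt.le, by omega⟩, hp⟩
    rw [h4, Finset.sum_filter, Finset.mul_sum]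
    refine Finset.sum_le_sum fun n _ => ?_
    unfold Pool.Agent.H305R2.fp
    split_ifs with hn
    · have hn0 : (0 : ℝ) < n := by exact_mod_cast hn.pos
      have h5 : 1 - (n : ℝ) ^ (-ε) ≤ ε * Real.log n := by
        rw [Real.rpow_def_of_pos hn0]
        have := Real.add_one_le_exp (Real.log n * -ε)
        linarith
      have h6 := mul_le_mul_of_nonneg_left h5 (show (0 : ℝ) ≤ 1 / n by positivity)
      refine h6.trans (le_of_eq ?_)
      ring
    · simp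
  refine h1.trans ?_
  have h2 := (abs_le.mp (hC N hN1)).2
  have h3 : ∑ p ∈ (Finset.Icc 1 N).filter Nat.Prime, Real.log p / p ≤ 1 / ε + |C| := by
    have := le_abs_self C
    linarith
  have h5 := mul_le_mul_of_nonneg_left h3 hε.le
  have h6 : ε * (1 / ε + |C|) = 1 + ε * |C| := by field_simp
  have h7 : ε * |C| ≤ 1 * |C| := mul_le_mul_of_nonneg_right hε1 (abs_nonneg _)
  linarith

/-- **Unconditional comparison.** -/
theorem uncond {b : ℕ → ℝ} {M : ℝ} (hb : ∀ n, |b n| ≤ M) : ∃ C : ℝ, ∀ᶠ ε : ℝ in 𝓝[>] 0,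
    |∑' n : ℕ, b n * fp n * (n : ℝ) ^ (-ε) -
      ∑ n ∈ Finset.range (⌊Real.exp (1 / ε)⌋₊ + 1), b n * fp n| ≤ C := by
  obtain ⟨C1, hC1⟩ := diff_bound
  obtain ⟨C2, hC20, hC2⟩ := head_bound
  have hM0 : 0 ≤ M := (abs_nonneg _).trans (hb 0)
  refine ⟨M * (C1 + 2 * C2), ?_⟩
  have hsm : ∀ᶠ ε : ℝ in 𝓝[>] 0, ε ≤ 1 :=
    (eventually_le_nhds (show (0 : ℝ) < 1 by norm_num)).filter_mono nhdsWithin_le_nhds
  filter_upwards [hC1, hsm, self_mem_nhdsWithin] with ε h1 hε1 hε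
  have hε0 : (0 : ℝ) < ε := hε
  have h2 := hC2 ε hε0 hε1
  set N := ⌊Real.exp (1 / ε)⌋₊ with hN
  have hs := bfp_summable hb hε0
  have hs1 := fp_summable hε0
  rw [← hs.sum_add_tsum_nat_add (N + 1)]
  have e1 := hs1.sum_add_tsum_nat_add (N + 1)
  set T := ∑' n : ℕ, fp n * (n : ℝ) ^ (-ε) with hT
  have h3 : |∑' n : ℕ, b (n + (N + 1)) * fp (n + (N + 1)) * ((n + (N + 1) : ℕ) : ℝ) ^ (-ε)| ≤
      M * ∑' n : ℕ, fp (n + (N + 1)) * ((n + (N + 1) : ℕ) : ℝ) ^ (-ε) := by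
    rw [← tsum_mul_left, ← Real.norm_eq_abs]
    refine tsum_of_norm_bounded ((((summable_nat_add_iff (N + 1)).mpr hs1).mul_left M).hasSum)
      fun n => ?_
    have h4 : (0 : ℝ) ≤ ((n + (N + 1) : ℕ) : ℝ) ^ (-ε) := by positivity
    rw [norm_mul, norm_mul, Real.norm_of_nonneg (fp_nonneg _), Real.norm_of_nonneg h4,
      Real.norm_eq_abs, ← mul_assoc]
    exact mul_le_mul_of_nonneg_right (mul_le_mul_of_nonneg_right (hb _) (fp_nonneg _)) h4
  have h4 : |∑ n ∈ Finset.range (N + 1), b n * fp n * (n : ℝ) ^ (-ε) -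
      ∑ n ∈ Finset.range (N + 1), b n * fp n| ≤
      M * ∑ n ∈ Finset.range (N + 1), fp n * (1 - (n : ℝ) ^ (-ε)) := by
    rw [← Finset.sum_sub_distrib, Finset.mul_sum]
    refine (Finset.abs_sum_le_sum_abs _ _).trans (Finset.sum_le_sum fun n _ => ?_)
    rw [show b n * fp n * (n : ℝ) ^ (-ε) - b n * fp n = -(b n * (fp n * (1 - (n : ℝ) ^ (-ε)))) by ring,
      abs_neg, abs_mul]
    have h5 : 0 ≤ fp n * (1 - (n : ℝ) ^ (-ε)) := by
      by_cases hn : n.Prime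
      · have hn1 : (1 : ℝ) ≤ n := by exact_mod_cast hn.one_lt.le
        have h6 : (n : ℝ) ^ (-ε) ≤ 1 := Real.rpow_le_one_of_one_le_of_nonpos hn1 (by linarith)
        exact mul_nonneg (fp_nonneg n) (by linarith)
      · unfold Pool.Agent.H305R2.fp
        rw [if_neg hn, zero_mul]
    rw [abs_of_nonneg h5]
    exact mul_le_mul_of_nonneg_right (hb n) h5
  have h5 : ∑ n ∈ Finset.range (N + 1), fp n * (1 - (n : ℝ) ^ (-ε)) =
      ∑ n ∈ Finset.range (N + 1), fp n - ∑ n ∈ Finset.range (N + 1), fp n * (n : ℝ) ^ (-ε) := by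
    rw [← Finset.sum_sub_distrib]
    exact Finset.sum_congr rfl fun n _ => by ring
  have h6 := (abs_le.mp h1).2
  have h7 : ∑' n : ℕ, fp (n + (N + 1)) * ((n + (N + 1) : ℕ) : ℝ) ^ (-ε) ≤ C1 + C2 := by
    linarith
  have h8 := mul_le_mul_of_nonneg_left h7 hM0
  have h9 := mul_le_mul_of_nonneg_left h2 hM0
  have h10 : ∑ n ∈ Finset.range (N + 1), b n * fp n * (n : ℝ) ^ (-ε) +
      ∑' n : ℕ, b (n + (N + 1)) * fp (n + (N + 1)) * ((n + (N + 1) : ℕ) : ℝ) ^ (-ε) -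
      ∑ n ∈ Finset.range (N + 1), b n * fp n =
      (∑ n ∈ Finset.range (N + 1), b n * fp n * (n : ℝ) ^ (-ε) -
        ∑ n ∈ Finset.range (N + 1), b n * fp n) +
      ∑' n : ℕ, b (n + (N + 1)) * fp (n + (N + 1)) * ((n + (N + 1) : ℕ) : ℝ) ^ (-ε) := by ring
  rw [h10]
  refine (abs_add_le _ _).trans ?_
  nlinarith
end Pool.Agent.D0H93.TM
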