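import Pool.Agent.D0H93.TM.Pts

/-! Numbers of points of varieties. -/

set_option autoImplicit false

namespace Pool.Agent.D0H93.TM

open Filter Topology Polynomial ComplexConjugate
open Pool.Agent.Y149.PK (Variety IsEuler)
open Pool.Agent.Y149.CM (cone IsFrobenius LFun)
open Pool.Agent.H305R2 (fp fp_nonneg)

theorem dual_sum (s : Multiset ℂ) (P Q : ℝ) (h : ∀ z ∈ s, Complex.normSq z = Q) :
    ((s.map fun z => (P : ℂ) / z).sum).re = P / Q * s.sum.re := by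
  induction s using Multiset.induction_on with
  | empty => simp
  | cons a s ih =>
    rw [Multiset.map_cons, Multiset.sum_cons, Multiset.sum_cons, Complex.add_re, Complex.add_re,
      ih fun z hz => h z (Multiset.mem_cons_of_mem hz), Complex.div_re,
      h a (Multiset.mem_cons_self a s), Complex.ofReal_re, Complex.ofReal_im]
    ring

/-- the trace on `H¹` -/
noncomputable def t1 (X : Variety) (p : Nat.Primes) : ℝ := (X.frob p 1).sum.re

/-- the normalised trace on `H²` -/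
noncomputable def b2 (X : Variety) (p : Nat.Primes) : ℝ :=
  (X.frob p 2).sum.re / ((p : ℕ) : ℝ) ^ (((2 : ℕ) : ℝ) / 2)

theorem b2_eq (X : Variety) (p : Nat.Primes) : b2 X p = (X.frob p 2).sum.re / ((p : ℕ) : ℝ) := by
  unfold b2
  have : (((2 : ℕ) : ℝ) / 2) = 1 := by norm_num
  rw [this, Real.rpow_one]

/-- `#X(𝔽_p) / p^d - 1` -/
noncomputable def xx (X : Variety) (p : Nat.Primes) : ℝ := points X p / ((p : ℕ) : ℝ) ^ X.dim - 1

theorem points_eq (X : Variety) (p : Nat.Primes) (h : IsFrobenius X.eqs X.dim p (X.frob p)) :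
    points X p = ∑ a ∈ Finset.range (2 * X.dim + 1), (-1 : ℝ) ^ a * (X.frob p a).sum.re := by
  haveI : Fact (p : ℕ).Prime := ⟨p.2⟩
  have h1 := h.count (ZMod p) 1 (by rw [Nat.card_zmod, pow_one])
  have hp : (((p : ℕ) : ℝ) - 1) ≠ 0 := by have := two_le p; linarith
  have h2 : (cone X.eqs (ZMod p) : ℝ) = (((p : ℕ) : ℝ) - 1) *
      ∑ a ∈ Finset.range (2 * X.dim + 1), (-1 : ℝ) ^ a * (X.frob p a).sum.re := by
    have h3 := congrArg Complex.re h1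
    rw [Complex.natCast_re] at h3
    rw [h3]
    have h4 : (((p : ℕ) : ℂ) ^ 1 - 1) = ((((p : ℕ) : ℝ) - 1 : ℝ) : ℂ) := by push_cast; ring
    rw [h4, Complex.re_ofReal_mul]
    congr 1
    rw [Complex.re_sum]
    refine Finset.sum_congr rfl fun a _ => ?_
    have h5 : ((-1 : ℂ) ^ a) = (((-1 : ℝ) ^ a : ℝ) : ℂ) := by push_cast; ring
    rw [h5, Complex.re_ofReal_mul]
    simp
  unfold points
  change (cone X.eqs (ZMod p) : ℝ) / _ = _
  rw [h2]
  field_simp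

theorem normSq_of {z : ℂ} {p : Nat.Primes} {a : ℕ} (h : ‖z‖ = ((p : ℕ) : ℝ) ^ ((a : ℝ) / 2)) :
    Complex.normSq z = ((p : ℕ) : ℝ) ^ a := by
  rw [Complex.normSq_eq_norm_sq, h, ← Real.rpow_natCast, ← Real.rpow_mul (p_pos p).le]
  rw [show (a : ℝ) / 2 * ((2 : ℕ) : ℝ) = a by push_cast; ring, Real.rpow_natCast]

theorem pts_asymp (X : Variety) (hX : IsConnected X) : ∃ C : ℝ, 0 ≤ C ∧
    ∀ᶠ p : Nat.Primes in cofinite,
      |xx X p + t1 X p / ((p : ℕ) : ℝ) - b2 X p / ((p : ℕ) : ℝ)| ≤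
        C * ((p : ℕ) : ℝ) ^ (-(3 / 2) : ℝ) ∧
      |t1 X p| ≤ C * ((p : ℕ) : ℝ) ^ (1 / 2 : ℝ) ∧ |b2 X p| ≤ C := by
  obtain ⟨hd, hX'⟩ := hX
  obtain ⟨d', hd'⟩ : ∃ d', X.dim = d' + 1 := ⟨X.dim - 1, by omega⟩
  refine ⟨∑ a ∈ Finset.range (2 * d'), (X.betti a : ℝ) + X.betti 1 + X.betti 2, by positivity, ?_⟩
  filter_upwards [X.good, hX'] with p hp hp'
  obtain ⟨hF, hconj, hcard⟩ := hp
  obtain ⟨h0, hdual⟩ := hp'
  have hp0 := p_pos p
  have hp2 := two_le p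
  have hn : ∀ a, ‖(X.frob p a).sum‖ ≤ X.betti a * ((p : ℕ) : ℝ) ^ ((a : ℝ) / 2) := by
    intro a
    have := ms_norm (hF.weight a)
    rwa [hcard a] at this
  have hre : ∀ a, |(X.frob p a).sum.re| ≤ X.betti a * ((p : ℕ) : ℝ) ^ ((a : ℝ) / 2) := fun a =>
    (Complex.abs_re_le_norm _).trans (hn a)
  have hSnn : 0 ≤ ∑ a ∈ Finset.range (2 * d'), (X.betti a : ℝ) := Finset.sum_nonneg fun _ _ => by positivity
  refine ⟨?_, ?_, ?_⟩
  · have hdu : ∀ a ≤ 2 * X.dim, (X.frob p (2 * X.dim - a)).sum.re =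
        ((p : ℕ) : ℝ) ^ X.dim / ((p : ℕ) : ℝ) ^ a * (X.frob p a).sum.re := by
      intro a ha
      rw [hdual a ha]
      have := dual_sum (X.frob p a) (((p : ℕ) : ℝ) ^ X.dim) (((p : ℕ) : ℝ) ^ a)
        fun z hz => normSq_of (hF.weight a z hz)
      rw [← this]
      push_cast
      rfl
    have e0 := hdu 0 (by omega)
    have e1 := hdu 1 (by omega)
    have e2 := hdu 2 (by omega)
    have i0 : 2 * X.dim - 0 = 2 * d' + 2 := by omega
    have i1 : 2 * X.dim - 1 = 2 * d' + 1 := by omega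
    have i2 : 2 * X.dim - 2 = 2 * d' := by omega
    rw [i0, h0, Multiset.sum_singleton, Complex.one_re, pow_zero, div_one, mul_one] at e0
    rw [i1, pow_one] at e1
    rw [i2] at e2
    have hpt := points_eq X p hF
    have i3 : 2 * X.dim + 1 = 2 * d' + 1 + 1 + 1 := by omega
    rw [i3, Finset.sum_range_succ, Finset.sum_range_succ, Finset.sum_range_succ, e0, e1, e2] at hpt
    have s0 : (-1 : ℝ) ^ (2 * d') = 1 := by rw [pow_mul]; norm_num
    have s1 : (-1 : ℝ) ^ (2 * d' + 1) = -1 := by rw [pow_succ, s0]; norm_num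
    have s2 : (-1 : ℝ) ^ (2 * d' + 1 + 1) = 1 := by rw [pow_succ, s1]; norm_num
    rw [s0, s1, s2] at hpt
    set S := ∑ a ∈ Finset.range (2 * d'), (-1 : ℝ) ^ a * (X.frob p a).sum.re with hS
    have hPd : 0 < ((p : ℕ) : ℝ) ^ X.dim := pow_pos hp0 _
    have key : xx X p + t1 X p / ((p : ℕ) : ℝ) - b2 X p / ((p : ℕ) : ℝ) = S / ((p : ℕ) : ℝ) ^ X.dim := by
      unfold xx t1
      rw [b2_eq, hpt]
      have hpne := hp0.ne'
      field_simp
      ring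
    have hSb : |S| ≤ (∑ a ∈ Finset.range (2 * d'), (X.betti a : ℝ)) *
        ((p : ℕ) : ℝ) ^ ((X.dim : ℝ) - 3 / 2) := by
      rw [hS, Finset.sum_mul]
      refine (Finset.abs_sum_le_sum_abs _ _).trans (Finset.sum_le_sum fun a ha => ?_)
      rw [abs_mul, abs_pow, abs_neg, abs_one, one_pow, one_mul]
      refine (hre a).trans (mul_le_mul_of_nonneg_left ?_ (by positivity))
      refine Real.rpow_le_rpow_of_exponent_le (by linarith) ?_
      have h1 : a + 1 ≤ 2 * d' := Finset.mem_range.mp ha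
      have h2 : (a : ℝ) + 1 ≤ 2 * d' := by exact_mod_cast h1
      have h3 : (X.dim : ℝ) = d' + 1 := by rw [hd']; push_cast; ring
      rw [h3]
      linarith
    rw [key, abs_div, abs_of_pos hPd]
    have e3 : ((p : ℕ) : ℝ) ^ ((X.dim : ℝ) - 3 / 2) =
        ((p : ℕ) : ℝ) ^ X.dim * ((p : ℕ) : ℝ) ^ (-(3 / 2) : ℝ) := by
      rw [← Real.rpow_natCast, ← Real.rpow_add hp0]
      congr 1
    rw [e3] at hSb
    rw [div_le_iff₀ hPd]
    refine hSb.trans ?_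
    have hc : 0 < ((p : ℕ) : ℝ) ^ (-(3 / 2) : ℝ) := Real.rpow_pos_of_pos hp0 _
    have h5 : (0 : ℝ) ≤ (X.betti 1 : ℝ) + X.betti 2 := by positivity
    have h6 : 0 ≤ ((X.betti 1 : ℝ) + X.betti 2) * (((p : ℕ) : ℝ) ^ X.dim *
      ((p : ℕ) : ℝ) ^ (-(3 / 2) : ℝ)) := by positivity
    nlinarith
  · have h1 := hre 1
    have e1 : (((1 : ℕ) : ℝ) / 2) = 1 / 2 := by norm_num
    rw [e1] at h1
    refine h1.trans (mul_le_mul_of_nonneg_right ?_ (by positivity))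
    have : (0 : ℝ) ≤ X.betti 2 := by positivity
    linarith
  · have h1 := hre 2
    rw [b2_eq, abs_div, abs_of_pos hp0, div_le_iff₀ hp0]
    have e1 : (((2 : ℕ) : ℝ) / 2) = 1 := by norm_num
    rw [e1, Real.rpow_one] at h1
    refine h1.trans (mul_le_mul_of_nonneg_right ?_ hp0.le)
    have : (0 : ℝ) ≤ X.betti 1 := by positivity
    linarith

theorem xx_bound {X : Variety} {p : Nat.Primes} {C : ℝ} (hC : 0 ≤ C)
    (h1 : |xx X p + t1 X p / ((p : ℕ) : ℝ) - b2 X p / ((p : ℕ) : ℝ)| ≤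
      C * ((p : ℕ) : ℝ) ^ (-(3 / 2) : ℝ)) (h2 : |t1 X p| ≤ C * ((p : ℕ) : ℝ) ^ (1 / 2 : ℝ))
    (h3 : |b2 X p| ≤ C) : |xx X p| ≤ 3 * C * ((p : ℕ) : ℝ) ^ (-(1 / 2) : ℝ) := by
  have hp0 := p_pos p
  have hp2 := two_le p
  have hi : 0 < ((p : ℕ) : ℝ)⁻¹ := inv_pos.mpr hp0
  have e1 : ((p : ℕ) : ℝ) ^ (-(3 / 2) : ℝ) ≤ ((p : ℕ) : ℝ) ^ (-(1 / 2) : ℝ) :=
    Real.rpow_le_rpow_of_exponent_le (by linarith) (by norm_num)
  have e2 : ((p : ℕ) : ℝ)⁻¹ ≤ ((p : ℕ) : ℝ) ^ (-(1 / 2) : ℝ) := by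
    rw [← Real.rpow_neg_one]
    exact Real.rpow_le_rpow_of_exponent_le (by linarith) (by norm_num)
  have e3 : ((p : ℕ) : ℝ) ^ (1 / 2 : ℝ) * ((p : ℕ) : ℝ)⁻¹ = ((p : ℕ) : ℝ) ^ (-(1 / 2) : ℝ) := by
    rw [← Real.rpow_neg_one, ← Real.rpow_add hp0]
    norm_num
  have h4 : |t1 X p / ((p : ℕ) : ℝ)| ≤ C * ((p : ℕ) : ℝ) ^ (-(1 / 2) : ℝ) := by
    rw [abs_div, abs_of_pos hp0, div_eq_mul_inv, ← e3, ← mul_assoc]
    exact mul_le_mul_of_nonneg_right h2 hi.le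
  have h5 : |b2 X p / ((p : ℕ) : ℝ)| ≤ C * ((p : ℕ) : ℝ) ^ (-(1 / 2) : ℝ) := by
    rw [abs_div, abs_of_pos hp0, div_eq_mul_inv]
    exact mul_le_mul h3 e2 hi.le hC
  have h6 := mul_le_mul_of_nonneg_left e1 hC
  have h7 := abs_le.mp (h1.trans h6)
  have h8 := abs_le.mp h4
  have h9 := abs_le.mp h5
  rw [abs_le]
  constructor <;> linarith

/-- two varieties with the same `H¹` -/
theorem two_varieties {X Y : Variety} (hX : IsConnected X) (hY : IsConnected Y)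
    (h : ∀ᶠ p : Nat.Primes in cofinite, X.frob p 1 = Y.frob p 1) :
    ∃ T0 : Finset Nat.Primes, ∀ T, T0 ⊆ T → ∃ e : Nat.Primes → ℝ, Summable e ∧
      ∀ p, p ∉ T → (points X p / ((p : ℕ) : ℝ) ^ X.dim) / (points Y p / ((p : ℕ) : ℝ) ^ Y.dim) =
        Real.exp ((b2 X p - b2 Y p) / ((p : ℕ) : ℝ) + e p) := by
  obtain ⟨C, hC, h1⟩ := pts_asymp X hX
  obtain ⟨D, hD, h2⟩ := pts_asymp Y hY
  have hr := ratio_exp (x := xx X) (y := xx Y) (b := fun p => b2 X p - b2 Y p) (C := 3 * (C + D))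
    ?_ ?_ ?_ ?_
  · obtain ⟨T0, hT0⟩ := hr
    refine ⟨T0, fun T hT => ?_⟩
    obtain ⟨e, he, h3⟩ := hT0 T hT
    refine ⟨e, he, fun p hp => ?_⟩
    obtain ⟨h4, h5⟩ := h3 p hp
    rw [← h5]
    unfold xx
    simp only [add_sub_cancel]
  · filter_upwards [h1] with p ⟨i1, i2, i3⟩
    refine (xx_bound hC i1 i2 i3).trans (mul_le_mul_of_nonneg_right ?_ (by positivity))
    linarith
  · filter_upwards [h2] with p ⟨i1, i2, i3⟩
    refine (xx_bound hD i1 i2 i3).trans (mul_le_mul_of_nonneg_right ?_ (by positivity))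
    linarith
  · filter_upwards [h1, h2] with p ⟨_, _, i3⟩ ⟨_, _, j3⟩
    refine (abs_sub _ _).trans ?_
    linarith
  · filter_upwards [h1, h2, h] with p ⟨i1, _, _⟩ ⟨j1, _, _⟩ hp
    have ht : t1 X p = t1 Y p := by unfold t1; rw [hp]
    have hc : 0 < ((p : ℕ) : ℝ) ^ (-(3 / 2) : ℝ) := Real.rpow_pos_of_pos (p_pos p) _
    have e1 : xx X p - xx Y p - (b2 X p - b2 Y p) / ((p : ℕ) : ℝ) =
        (xx X p + t1 X p / ((p : ℕ) : ℝ) - b2 X p / ((p : ℕ) : ℝ)) -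
        (xx Y p + t1 Y p / ((p : ℕ) : ℝ) - b2 Y p / ((p : ℕ) : ℝ)) := by
      rw [ht]
      ring
    rw [e1]
    refine (abs_sub _ _).trans ?_
    have : 0 ≤ (C + D) * ((p : ℕ) : ℝ) ^ (-(3 / 2) : ℝ) := by positivity
    linarith

/-- varieties with `H¹ = 0` -/
theorem one_variety {X : Variety} (hX : IsConnected X)
    (h : ∀ᶠ p : Nat.Primes in cofinite, X.frob p 1 = 0) :
    (∃ C : ℝ, ∀ᶠ p : Nat.Primes in cofinite, |xx X p - b2 X p / ((p : ℕ) : ℝ)| ≤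
      C * ((p : ℕ) : ℝ) ^ (-(3 / 2) : ℝ)) ∧
    ∃ T0 : Finset Nat.Primes, ∀ T, T0 ⊆ T → ∃ e : Nat.Primes → ℝ, Summable e ∧
      ∀ p, p ∉ T → points X p / ((p : ℕ) : ℝ) ^ X.dim =
        Real.exp (b2 X p / ((p : ℕ) : ℝ) + e p) := by
  obtain ⟨C, hC, h1⟩ := pts_asymp X hX
  have h0 : ∀ᶠ p : Nat.Primes in cofinite, |xx X p - b2 X p / ((p : ℕ) : ℝ)| ≤
      C * ((p : ℕ) : ℝ) ^ (-(3 / 2) : ℝ) := by
    filter_upwards [h1, h] with p ⟨i1, _, _⟩ hp
    have ht : t1 X p = 0 := by unfold t1; rw [hp]; simp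
    rw [ht, zero_div, add_zero] at i1
    exact i1
  refine ⟨⟨C, h0⟩, ?_⟩
  have hr := ratio_exp (x := xx X) (y := fun _ => 0) (b := b2 X) (C := 3 * C)
    ?_ ?_ ?_ ?_
  · obtain ⟨T0, hT0⟩ := hr
    refine ⟨T0, fun T hT => ?_⟩
    obtain ⟨e, he, h3⟩ := hT0 T hT
    refine ⟨e, he, fun p hp => ?_⟩
    obtain ⟨h4, h5⟩ := h3 p hp
    rw [← h5]
    unfold xx
    rw [add_zero, div_one, add_sub_cancel]
  · filter_upwards [h1] with p ⟨i1, i2, i3⟩
    exact xx_bound hC i1 i2 i3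
  · refine Eventually.of_forall fun p => ?_
    rw [abs_zero]
    positivity
  · filter_upwards [h1] with p ⟨_, _, i3⟩
    linarith
  · filter_upwards [h0] with p hp
    rw [sub_zero]
    refine hp.trans (mul_le_mul_of_nonneg_right (by linarith) (by positivity))

end Pool.Agent.D0H93.TM
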